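import Mathlib

/-! Bernoulli product measures: local events, independence, Harris inequality, Russo formula. -/

open MeasureTheory ProbabilityTheory Set Filter Topology
open scoped ENNReal

namespace Pool.Agent.Lib.helper98

variable {ι : Type}

/-- Bernoulli product measure with parameter `p` (clamped to the unit interval). -/
noncomputable def PP (ι : Type) (p : ℝ) : Measure (ι → Prop) :=
  Measure.infinitePi fun _ : ι => bernoulliMeasure True False (projIcc (0 : ℝ) 1 zero_le_one p)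

instance (p : ℝ) : IsProbabilityMeasure (PP ι p) := by unfold PP; infer_instance

/-- probability of an event -/
noncomputable def pr (p : ℝ) (A : Set (ι → Prop)) : ℝ := (PP ι p).real A

/-- the event only depends on the coordinates in `E` -/
def Dep (E : Set ι) (A : Set (ι → Prop)) : Prop :=
  ∀ ω ω' : ι → Prop, (∀ e ∈ E, (ω e ↔ ω' e)) → ω ∈ A → ω' ∈ A

/-- increasing event -/
def Incr (A : Set (ι → Prop)) : Prop :=
  ∀ ω ω' : ι → Prop, (∀ e, ω e → ω' e) → ω ∈ A → ω' ∈ A

variable {E F : Set ι} {A B : Set (ι → Prop)} {p : ℝ}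

lemma Dep.mono (h : Dep E A) (hEF : E ⊆ F) : Dep F A :=
  fun ω ω' hh => h ω ω' fun e he => hh e (hEF he)

lemma Dep.iff (h : Dep E A) {ω ω' : ι → Prop} (hh : ∀ e ∈ E, (ω e ↔ ω' e)) : ω ∈ A ↔ ω' ∈ A :=
  ⟨h ω ω' hh, h ω' ω fun e he => (hh e he).symm⟩

lemma Dep.compl (h : Dep E A) : Dep E Aᶜ := fun _ _ hh h1 h2 => h1 ((h.iff hh).mpr h2)

lemma Dep.inter (h : Dep E A) (h' : Dep E B) : Dep E (A ∩ B) :=
  fun ω ω' hh h1 => ⟨h ω ω' hh h1.1, h' ω ω' hh h1.2⟩

lemma Dep.union (h : Dep E A) (h' : Dep E B) : Dep E (A ∪ B) :=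
  fun ω ω' hh h1 => h1.elim (fun a => Or.inl (h ω ω' hh a)) fun a => Or.inr (h' ω ω' hh a)

lemma Incr.inter (h : Incr A) (h' : Incr B) : Incr (A ∩ B) :=
  fun ω ω' hh h1 => ⟨h ω ω' hh h1.1, h' ω ω' hh h1.2⟩

lemma Incr.union (h : Incr A) (h' : Incr B) : Incr (A ∪ B) :=
  fun ω ω' hh h1 => h1.elim (fun a => Or.inl (h ω ω' hh a)) fun a => Or.inr (h' ω ω' hh a)

lemma Dep.eq_preimage {s : Finset ι} (h : Dep (s : Set ι) A) :
    A = (fun (ω : ι → Prop) (i : s) => ω i) ⁻¹' ((fun (ω : ι → Prop) (i : s) => ω i) '' A) := by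
  ext ω
  refine ⟨fun hω => ⟨ω, hω, rfl⟩, ?_⟩
  rintro ⟨ω', h1, h2⟩
  exact h ω' ω (fun e he => iff_of_eq (congrFun h2 ⟨e, he⟩)) h1

lemma Dep.measurableSet (h : Dep E A) (hE : E.Finite) : MeasurableSet A := by
  lift E to Finset ι using hE
  rw [h.eq_preimage]
  exact (by fun_prop : Measurable fun (ω : ι → Prop) (i : E) => ω i) MeasurableSet.of_discrete

lemma indep_coord (p : ℝ) : iIndepFun (fun (i : ι) (ω : ι → Prop) => ω i) (PP ι p) :=
  iIndepFun_infinitePi (X := fun _ x => x) fun _ => measurable_id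

lemma pr_inter_of_disjoint (hA : Dep E A) (hB : Dep F B) (hE : E.Finite) (hF : F.Finite)
    (hEF : Disjoint E F) : pr p (A ∩ B) = pr p A * pr p B := by
  lift E to Finset ι using hE
  lift F to Finset ι using hF
  have h := (indep_coord (ι := ι) p).indepFun_finset E F (Finset.disjoint_coe.mp hEF)
    fun i => measurable_pi_apply i
  have h2 := h.measure_inter_preimage_eq_mul ((fun (ω : ι → Prop) (i : E) => ω i) '' A)
    ((fun (ω : ι → Prop) (i : F) => ω i) '' B) MeasurableSet.of_discrete MeasurableSet.of_discrete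
  rw [← hA.eq_preimage, ← hB.eq_preimage] at h2
  simp only [pr, Measure.real, h2, ENNReal.toReal_mul]

lemma pr_nonneg (p : ℝ) (A : Set (ι → Prop)) : 0 ≤ pr p A := measureReal_nonneg

lemma pr_le_one (p : ℝ) (A : Set (ι → Prop)) : pr p A ≤ 1 := measureReal_le_one

lemma pr_mono (h : A ⊆ B) : pr p A ≤ pr p B := measureReal_mono h

lemma pr_univ : pr p (univ : Set (ι → Prop)) = 1 := probReal_univ

lemma pr_empty : pr p (∅ : Set (ι → Prop)) = 0 := measureReal_empty

lemma pr_union_le (p : ℝ) (A B : Set (ι → Prop)) : pr p (A ∪ B) ≤ pr p A + pr p B :=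
  measureReal_union_le A B

lemma pr_compl (hA : MeasurableSet A) : pr p Aᶜ = 1 - pr p A := probReal_compl_eq_one_sub hA

lemma pr_biUnion_le {α : Type*} (p : ℝ) (s : Finset α) (f : α → Set (ι → Prop)) :
    pr p (⋃ a ∈ s, f a) ≤ ∑ a ∈ s, pr p (f a) := measureReal_biUnion_finset_le s f

lemma pr_le_sum {α : Type*} (s : Finset α) (f : α → Set (ι → Prop))
    (h : ∀ ω ∈ A, ∃ a ∈ s, ω ∈ f a) : pr p A ≤ ∑ a ∈ s, pr p (f a) :=
  (pr_mono fun ω hω => by simpa using h ω hω).trans (pr_biUnion_le p s f)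

lemma sum_pr_le {α : Type*} (s : Finset α) (f : α → Set (ι → Prop))
    (hm : ∀ a ∈ s, MeasurableSet (f a)) (hd : (s : Set α).PairwiseDisjoint f)
    (h : ∀ a ∈ s, f a ⊆ A) : ∑ a ∈ s, pr p (f a) ≤ pr p A := by
  unfold pr
  rw [← measureReal_biUnion_finset hd hm]
  exact measureReal_mono (iUnion₂_subset h)

lemma pr_inter_add_diff (hB : MeasurableSet B) : pr p (A ∩ B) + pr p (A \ B) = pr p A :=
  measureReal_inter_add_sdiff hB

lemma pr_coord (hp0 : 0 ≤ p) (hp1 : p ≤ 1) (e : ι) : pr p {ω : ι → Prop | ω e} = p := by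
  have h := (measurePreserving_eval_infinitePi
    (fun _ : ι => bernoulliMeasure True False (projIcc (0 : ℝ) 1 zero_le_one p)) e).measureReal_preimage
    (s := {True}) (measurableSet_singleton True).nullMeasurableSet
  rw [bernoulliMeasure_real_apply_of_mem_of_notMem _ (measurableSet_singleton True) rfl
    (by simp)] at h
  have e1 : ((projIcc (0 : ℝ) 1 zero_le_one p : unitInterval) : ℝ) = p := by
    rw [projIcc_of_mem zero_le_one ⟨hp0, hp1⟩]
  rw [e1] at h
  refine Eq.trans ?_ h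
  rw [pr, PP]
  congr 1
  ext ω; simp

lemma dep_coord (e : ι) : Dep {e} {ω : ι → Prop | ω e} := fun _ _ h h1 => (h e rfl).mp h1

lemma pr_preimage_inj {κ : Type} {f : κ → ι} (hf : Function.Injective f) {A : Set (κ → Prop)}
    (hA : MeasurableSet A) : pr p {ω : ι → Prop | (fun i => ω (f i)) ∈ A} = pr p A := by
  have h : (PP ι p).map (fun ω i => ω (f i)) = PP κ p :=
    Measure.map_infinitePi_infinitePi_of_inj hf
  rw [pr, pr, ← h, map_measureReal_apply (by fun_prop) hA]
  rfl

lemma map_not (hp0 : 0 ≤ p) (hp1 : p ≤ 1) : (PP ι p).map (fun ω i => ¬ω i) = PP ι (1 - p) := by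
  have hm : Measurable (Not : Prop → Prop) := Measurable.of_discrete
  rw [PP, Measure.infinitePi_map_pi _ (f := fun _ => Not) fun _ => hm, PP]
  congr 1
  funext _
  have e : projIcc (0 : ℝ) 1 zero_le_one (1 - p) =
      unitInterval.symm (projIcc (0 : ℝ) 1 zero_le_one p) := by
    rw [projIcc_of_mem zero_le_one ⟨hp0, hp1⟩, projIcc_of_mem zero_le_one ⟨by linarith, by linarith⟩]
    rfl
  rw [e, bernoulliMeasure_def, bernoulliMeasure_def, Measure.map_add _ _ hm, Measure.map_smul,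
    Measure.map_smul, Measure.map_dirac' hm, Measure.map_dirac' hm, add_comm]
  simp

lemma pr_preimage_dual (hp0 : 0 ≤ p) (hp1 : p ≤ 1) {f : ι → ι} (hf : Function.Injective f)
    (hA : MeasurableSet A) : pr p {ω : ι → Prop | (fun i => ¬ω (f i)) ∈ A} = pr (1 - p) A := by
  have hm : Measurable fun (ω : ι → Prop) i => ¬ω i := by fun_prop
  rw [pr, pr, ← map_not hp0 hp1, map_measureReal_apply hm hA]
  exact pr_preimage_inj (p := p) hf (hm hA)

open Classical in
/-- overwrite the coordinates in `B` by `b` -/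
noncomputable def ovr (B : Set ι) (b : Prop) (ω : ι → Prop) : ι → Prop :=
  fun i => if i ∈ B then b else ω i

lemma ovr_of_mem {B : Set ι} {b : Prop} {ω : ι → Prop} {i : ι} (h : i ∈ B) : ovr B b ω i = b :=
  if_pos h

lemma ovr_of_notMem {B : Set ι} {b : Prop} {ω : ι → Prop} {i : ι} (h : i ∉ B) :
    ovr B b ω i = ω i := if_neg h

lemma ovr_comm {B C : Set ι} (h : Disjoint B C) (b c : Prop) (ω : ι → Prop) :
    ovr B b (ovr C c ω) = ovr C c (ovr B b ω) := by
  funext i
  by_cases h1 : i ∈ B <;> by_cases h2 : i ∈ C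
  · exact (Set.disjoint_left.mp h h1 h2).elim
  all_goals simp [ovr, h1, h2]

lemma ovr_union (B C : Set ι) (b : Prop) (ω : ι → Prop) :
    ovr (B ∪ C) b ω = ovr B b (ovr C b ω) := by
  funext i
  by_cases h1 : i ∈ B <;> by_cases h2 : i ∈ C <;> simp [ovr, h1, h2]

lemma ovr_mono (B : Set ι) (b : Prop) {ω ω' : ι → Prop} (h : ∀ e, ω e → ω' e) (e : ι) :
    ovr B b ω e → ovr B b ω' e := by
  by_cases h1 : e ∈ B <;> simp only [ovr, h1, if_true, if_false]
  · exact id
  · exact h e

lemma ovr_false_le (B : Set ι) (ω : ι → Prop) (e : ι) : ovr B False ω e → ω e := by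
  by_cases h1 : e ∈ B <;> simp [ovr, h1]

lemma le_ovr_true (B : Set ι) (ω : ι → Prop) (e : ι) : ω e → ovr B True ω e := by
  by_cases h1 : e ∈ B <;> simp [ovr, h1]

lemma Dep.ovr (h : Dep E A) (B : Set ι) (b : Prop) : Dep (E \ B) (ovr B b ⁻¹' A) := by
  intro ω ω' hh h1
  refine h _ _ (fun e he => ?_) h1
  by_cases h2 : e ∈ B
  · rw [ovr_of_mem h2, ovr_of_mem h2]
  · rw [ovr_of_notMem h2, ovr_of_notMem h2]; exact hh e ⟨he, h2⟩

lemma Incr.ovr (h : Incr A) (B : Set ι) (b : Prop) : Incr (ovr B b ⁻¹' A) :=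
  fun _ _ hh h1 => h _ _ (ovr_mono B b hh) h1

lemma Incr.ovr_subset (h : Incr A) (B : Set ι) : helper98.ovr B False ⁻¹' A ⊆ helper98.ovr B True ⁻¹' A :=
  fun ω h1 => h _ _ (fun e he => le_ovr_true B ω e (ovr_false_le B ω e he)) h1

lemma pr_rec (hp0 : 0 ≤ p) (hp1 : p ≤ 1) (hA : Dep E A) (hE : E.Finite) (e : ι) :
    pr p A = p * pr p (ovr {e} True ⁻¹' A) + (1 - p) * pr p (ovr {e} False ⁻¹' A) := by
  have hm : MeasurableSet {ω : ι → Prop | ω e} := (dep_coord e).measurableSet (finite_singleton e)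
  have hd : Disjoint (E \ {e}) {e} := disjoint_sdiff_left
  have h1 : A ∩ {ω | ω e} = (ovr {e} True ⁻¹' A) ∩ {ω | ω e} := by
    ext ω
    refine and_congr_left fun h => ?_
    have : ovr {e} True ω = ω := by
      funext i
      by_cases hi : i = e
      · subst hi; rw [ovr_of_mem (mem_singleton i)]; exact (eq_true h).symm
      · rw [ovr_of_notMem (B := {e}) hi]
    rw [mem_preimage, this]
  have h2 : A \ {ω | ω e} = (ovr {e} False ⁻¹' A) ∩ {ω | ω e}ᶜ := by
    ext ω
    refine and_congr_left fun h => ?_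
    have : ovr {e} False ω = ω := by
      funext i
      by_cases hi : i = e
      · subst hi; rw [ovr_of_mem (mem_singleton i)]; exact (eq_false h).symm
      · rw [ovr_of_notMem (B := {e}) hi]
    rw [mem_preimage, this]
  rw [← pr_inter_add_diff (A := A) hm, h1, h2,
    pr_inter_of_disjoint (hA.ovr _ _) (dep_coord e) hE.sdiff (finite_singleton e) hd,
    pr_inter_of_disjoint (hA.ovr _ _) (dep_coord e).compl hE.sdiff (finite_singleton e) hd,
    pr_compl hm, pr_coord hp0 hp1]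
  ring

lemma Dep.eq_of_empty (h : Dep ∅ A) : A = ∅ ∨ A = univ := by
  rcases A.eq_empty_or_nonempty with h1 | ⟨ω, h1⟩
  · exact Or.inl h1
  · exact Or.inr (eq_univ_of_forall fun ω' => h ω ω' (by simp) h1)

lemma insert_sdiff_subset (e : ι) (s : Set ι) : insert e s \ {e} ⊆ s := by
  rintro x ⟨h1 | h1, h2⟩
  · exact (h2 h1).elim
  · exact h1

/-- Harris inequality -/
lemma harris (hp0 : 0 ≤ p) (hp1 : p ≤ 1) (hE : E.Finite) (hA : Dep E A) (hB : Dep E B)
    (iA : Incr A) (iB : Incr B) : pr p A * pr p B ≤ pr p (A ∩ B) := by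
  induction E, hE using Set.Finite.induction_on generalizing A B with
  | empty =>
    rcases hA.eq_of_empty with rfl | rfl
    · simp [pr_empty]
    · simp [pr_univ]
  | @insert e s _ hs ih =>
    have hf := hs.insert e
    rw [pr_rec hp0 hp1 hA hf e, pr_rec hp0 hp1 hB hf e, pr_rec hp0 hp1 (hA.inter hB) hf e]
    have h1 := ih ((hA.ovr {e} True).mono (insert_sdiff_subset e s))
      ((hB.ovr {e} True).mono (insert_sdiff_subset e s)) (iA.ovr _ _) (iB.ovr _ _)
    have h2 := ih ((hA.ovr {e} False).mono (insert_sdiff_subset e s))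
      ((hB.ovr {e} False).mono (insert_sdiff_subset e s)) (iA.ovr _ _) (iB.ovr _ _)
    have h3 : pr p _ ≤ pr p _ := pr_mono (iA.ovr_subset {e})
    have h4 : pr p _ ≤ pr p _ := pr_mono (iB.ovr_subset {e})
    rw [preimage_inter, preimage_inter]
    have h5 := mul_nonneg (mul_nonneg hp0 (sub_nonneg.mpr hp1))
      (mul_nonneg (sub_nonneg.mpr h3) (sub_nonneg.mpr h4))
    nlinarith [mul_le_mul_of_nonneg_left h1 hp0, mul_le_mul_of_nonneg_left h2 (sub_nonneg.mpr hp1)]

lemma harris_compl (hp0 : 0 ≤ p) (hp1 : p ≤ 1) (hE : E.Finite) (hA : Dep E A) (hB : Dep E B)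
    (iA : Incr A) (iB : Incr B) : pr p Aᶜ * pr p Bᶜ ≤ pr p (A ∪ B)ᶜ := by
  have h := harris hp0 hp1 hE hA hB iA iB
  have mA := hA.measurableSet hE
  have mB := hB.measurableSet hE
  rw [pr_compl mA, pr_compl mB, pr_compl (mA.union mB)]
  have h2 : pr p (A ∪ B) + pr p (A ∩ B) = pr p A + pr p B := measureReal_union_add_inter mB
  nlinarith

/-- the set `B` is pivotal for `A` -/
def Piv (B : Set ι) (A : Set (ι → Prop)) : Set (ι → Prop) :=
  (ovr B True ⁻¹' A) \ (ovr B False ⁻¹' A)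

lemma Dep.piv (h : Dep E A) (B : Set ι) : Dep E (Piv B A) :=
  ((h.ovr B True).inter (h.ovr B False).compl).mono sdiff_subset

lemma piv_ovr {B C : Set ι} (h : Disjoint B C) (b : Prop) (A : Set (ι → Prop)) :
    Piv B (ovr C b ⁻¹' A) = ovr C b ⁻¹' Piv B A := by
  ext ω
  simp only [Piv, Set.mem_sdiff, mem_preimage, ovr_comm h]

/-- Russo formula -/
lemma russo (hp0 : 0 < p) (hp1 : p < 1) (s : Finset ι) (hA : Dep (s : Set ι) A) (iA : Incr A) :
    HasDerivAt (fun q => pr q A) (∑ e ∈ s, pr p (Piv {e} A)) p := by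
  classical
  induction s using Finset.induction_on generalizing A with
  | empty =>
    rcases Dep.eq_of_empty (by simpa using hA) with rfl | rfl
    · simpa [pr_empty] using hasDerivAt_const p (0 : ℝ)
    · simpa [pr_univ] using hasDerivAt_const p (1 : ℝ)
  | insert e s hes ih =>
    rw [Finset.coe_insert] at hA
    have hf := s.finite_toSet.insert e
    have d1 := (hA.ovr {e} True).mono (insert_sdiff_subset e s)
    have d2 := (hA.ovr {e} False).mono (insert_sdiff_subset e s)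
    have h1 := ih d1 (iA.ovr _ _)
    have h2 := ih d2 (iA.ovr _ _)
    have h3 := ((hasDerivAt_id' p).mul h1).add
      (((hasDerivAt_const p (1 : ℝ)).sub (hasDerivAt_id' p)).mul h2)
    have h4 : (fun q => pr q A) =ᶠ[𝓝 p] fun q =>
        q * pr q (ovr {e} True ⁻¹' A) + (1 - q) * pr q (ovr {e} False ⁻¹' A) := by
      filter_upwards [Icc_mem_nhds hp0 hp1] with q hq
      exact pr_rec hq.1 hq.2 hA hf e
    refine (HasDerivAt.congr_of_eventuallyEq h3 h4).congr_deriv ?_
    rw [Finset.sum_insert hes]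
    have e1 : pr p (Piv {e} A) = pr p (ovr {e} True ⁻¹' A) - pr p (ovr {e} False ⁻¹' A) := by
      have := pr_inter_add_diff (p := p) (A := ovr {e} True ⁻¹' A) (d2.measurableSet s.finite_toSet)
      rw [inter_eq_right.mpr (iA.ovr_subset {e})] at this
      rw [Piv]; linarith
    have e2 : ∀ f ∈ s, pr p (Piv {f} A) = p * pr p (Piv {f} (ovr {e} True ⁻¹' A)) +
        (1 - p) * pr p (Piv {f} (ovr {e} False ⁻¹' A)) := by
      intro f hfs
      have hd : Disjoint ({f} : Set ι) {e} := by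
        rw [disjoint_singleton]; rintro rfl; exact hes hfs
      rw [piv_ovr hd, piv_ovr hd]
      exact pr_rec hp0.le hp1.le (hA.piv _) hf e
    rw [Finset.sum_congr rfl e2, Finset.sum_add_distrib, ← Finset.mul_sum, ← Finset.mul_sum, e1]
    simp only [Pi.sub_apply]
    ring

lemma pr_mono_param {q : ℝ} (hp0 : 0 ≤ p) (hpq : p ≤ q) (hq : q ≤ 1) (hE : E.Finite) (hA : Dep E A)
    (iA : Incr A) : pr p A ≤ pr q A := by
  induction E, hE using Set.Finite.induction_on generalizing A with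
  | empty =>
    rcases hA.eq_of_empty with rfl | rfl
    · simp [pr_empty]
    · simp [pr_univ]
  | @insert e s _ hs ih =>
    have hf := hs.insert e
    rw [pr_rec hp0 (hpq.trans hq) hA hf e, pr_rec (hp0.trans hpq) hq hA hf e]
    have h1 := ih ((hA.ovr {e} True).mono (insert_sdiff_subset e s)) (iA.ovr _ _)
    have h2 := ih ((hA.ovr {e} False).mono (insert_sdiff_subset e s)) (iA.ovr _ _)
    have h3 : pr q _ ≤ pr q _ := pr_mono (iA.ovr_subset {e})
    nlinarith [mul_le_mul_of_nonneg_left h1 hp0,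
      mul_le_mul_of_nonneg_left h2 (sub_nonneg.mpr (hpq.trans hq)),
      mul_nonneg (sub_nonneg.mpr hpq) (sub_nonneg.mpr h3)]

lemma finite_energy_one {δ : ℝ} (hδ : 0 ≤ δ) (h1 : δ ≤ p) (h2 : δ ≤ 1 - p) (hE : E.Finite)
    (hA : Dep E A) (e : ι) (b : Prop) : δ * pr p (ovr {e} b ⁻¹' A) ≤ pr p A := by
  rw [pr_rec (hδ.trans h1) (by linarith) hA hE e]
  have a1 := pr_nonneg p (ovr {e} True ⁻¹' A)
  have a2 := pr_nonneg p (ovr {e} False ⁻¹' A)
  by_cases hb : b
  · rw [eq_true hb]; nlinarith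
  · rw [eq_false hb]; nlinarith

lemma finite_energy {δ : ℝ} (hδ : 0 ≤ δ) (h1 : δ ≤ p) (h2 : δ ≤ 1 - p) (hE : E.Finite)
    (hA : Dep E A) (s : Finset ι) (b : Prop) :
    δ ^ s.card * pr p (ovr (s : Set ι) b ⁻¹' A) ≤ pr p A := by
  classical
  induction s using Finset.induction_on with
  | empty =>
    have : ovr (∅ : Set ι) b = id := by funext ω i; simp [ovr]
    simp [this]
  | insert e s hes ih =>
    refine le_trans ?_ ih
    rw [Finset.card_insert_of_notMem hes, pow_succ, mul_assoc]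
    refine mul_le_mul_of_nonneg_left ?_ (pow_nonneg hδ _)
    have := finite_energy_one hδ h1 h2 (hE.sdiff) (hA.ovr s b) e b
    refine le_trans (le_of_eq ?_) this
    congr 2
    ext ω
    rw [Finset.coe_insert, insert_eq, union_comm, mem_preimage, ovr_union]
    rfl

lemma box_piv {δ : ℝ} (hδ : 0 ≤ δ) (h1 : δ ≤ p) (h2 : δ ≤ 1 - p) (hE : E.Finite)
    (hA : Dep E A) (s : Finset ι) :
    δ ^ s.card * pr p (Piv (s : Set ι) A) ≤ ∑ e ∈ s, pr p (Piv {e} A) := by
  classical
  induction s using Finset.induction_on with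
  | empty =>
    have : ∀ b, ovr (∅ : Set ι) b = id := by intro b; funext ω i; simp [ovr]
    simp [Piv, this, pr_empty]
  | insert e s hes ih =>
    have hd : Disjoint ({e} : Set ι) s := by simpa using hes
    have hsub : Piv (insert e s : Finset ι) A ⊆
        (ovr (s : Set ι) False ⁻¹' Piv {e} A) ∪ (ovr {e} True ⁻¹' Piv (s : Set ι) A) := by
      intro ω hω
      simp only [Piv, Finset.coe_insert, insert_eq, Set.mem_sdiff, mem_preimage, ovr_union] at hω
      simp only [Piv, mem_union, Set.mem_sdiff, mem_preimage]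
      by_cases h : ovr {e} True (ovr (s : Set ι) False ω) ∈ A
      · exact Or.inl ⟨h, hω.2⟩
      · right
        rw [← ovr_comm hd, ← ovr_comm hd]
        exact ⟨hω.1, h⟩
    have a1 := (pr_mono (p := p) hsub).trans (pr_union_le p _ _)
    have a2 := finite_energy hδ h1 h2 hE (hA.piv {e}) s False
    have a3 := finite_energy_one hδ h1 h2 hE (hA.piv s) e True
    have hδ1 : δ ≤ 1 := by linarith
    have hpow : 0 ≤ δ ^ s.card := pow_nonneg hδ _
    rw [Finset.card_insert_of_notMem hes, Finset.sum_insert hes, pow_succ]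
    have b1 := pr_nonneg p (ovr (s : Set ι) False ⁻¹' Piv {e} A)
    have c1 := mul_le_mul_of_nonneg_left a1 (mul_nonneg hpow hδ)
    have c2 := mul_le_mul_of_nonneg_left a3 hpow
    have c3 : δ ^ s.card * δ * pr p (ovr (s : Set ι) False ⁻¹' Piv {e} A) ≤
        δ ^ s.card * pr p (ovr (s : Set ι) False ⁻¹' Piv {e} A) := by
      rw [mul_assoc]
      exact mul_le_mul_of_nonneg_left (mul_le_of_le_one_left b1 hδ1) hpow
    nlinarith

end Pool.Agent.Lib.helper98
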