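import Pool.Agent.Lib.helper98.Zhang

/-! Crossing estimates for rectangles above one half. -/

open Set

namespace Pool.Agent.Lib.helper98

variable {ω : V → Prop} {p : ℝ}

/-- left-right crossing of a rectangle -/
def LR (a b c d : ℤ) : Set (V → Prop) := Cr (rect a b c d) {z | z.1 = a} {z | z.1 = b}

/-- top-bottom crossing of a rectangle -/
def TB (a b c d : ℤ) : Set (V → Prop) := Cr (rect a b c d) {z | z.2 = d} {z | z.2 = c}

lemma measurableSet_LR (a b c d : ℤ) : MeasurableSet (LR a b c d) :=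
  measurableSet_Cr (rect_finite _ _ _ _) _ _

lemma measurableSet_TB (a b c d : ℤ) : MeasurableSet (TB a b c d) :=
  measurableSet_Cr (rect_finite _ _ _ _) _ _

lemma pr_TB_le (q : ℝ) {a b c d : ℤ} (hab : a ≤ b + 1) (hcd : c ≤ d) :
    pr q (TB a b c d) ≤ ((b + 1 - a : ℤ) : ℝ) * θ q (d - c) := by
  have h1 : pr q (TB a b c d) ≤ ∑ i ∈ Finset.Icc a b, pr q (Arm (i, d) (d - c)) := by
    refine pr_le_sum _ _ ?_
    rintro ω ⟨⟨x1, x2⟩, hx, y, hy, k⟩
    rw [mem_ofPred_eq] at hx hy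
    have := k.left_mem
    simp only [rect, mem_ofPred_eq] at this hx
    subst hx
    refine ⟨x1, Finset.mem_Icc.mpr ⟨this.1, this.2.1⟩,
      Cr_mono inter_subset_right (mem_arm (by omega) k ?_)⟩
    rw [mem_box]; simp only; omega
  refine h1.trans ((Finset.sum_le_card_nsmul _ _ _ fun i _ => pr_arm_le _ _).trans (le_of_eq ?_))
  rw [nsmul_eq_mul, Int.card_Icc]
  congr 1
  rw [← Int.cast_natCast, Int.toNat_of_nonneg (by omega)]

lemma pr_not_LR (hp0 : 0 ≤ p) (hp1 : p ≤ 1) {a b c d : ℤ} (hab : a ≤ b) (hcd : c ≤ d) :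
    pr p (LR a b c d)ᶜ ≤ ((b - a : ℤ) : ℝ) * θ (1 - p) (d - c + 1) := by
  have h1 : pr p (LR a b c d)ᶜ ≤ pr p (dual ⁻¹' TB a (b - 1) (c - 1) d) :=
    pr_mono fun ω hω => duality hab hcd hω
  rw [pr_dual hp0 hp1 (measurableSet_TB _ _ _ _)] at h1
  have h2 := pr_TB_le (1 - p) (a := a) (b := b - 1) (c := c - 1) (d := d) (by omega) (by omega)
  refine h1.trans (h2.trans (le_of_eq ?_))
  congr 2 <;> ring

lemma adj_swap {a b : V} (h : adj a b) : adj a.swap b.swap := by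
  unfold adj at *; simp only [Prod.fst_swap, Prod.snd_swap]; omega

lemma pr_not_TB (hp0 : 0 ≤ p) (hp1 : p ≤ 1) {a b c d : ℤ} (hab : a ≤ b) (hcd : c ≤ d) :
    pr p (TB a b c d)ᶜ ≤ ((d - c : ℤ) : ℝ) * θ (1 - p) (b - a + 1) := by
  refine le_trans ?_ (pr_not_LR hp0 hp1 hcd hab)
  rw [pr_compl (measurableSet_TB _ _ _ _), pr_compl (measurableSet_LR _ _ _ _)]
  have h1 : pr p (LR c d a b) ≤ pr p (Cr (rect a b c d) {z | z.2 = c} {z | z.2 = d}) := by
    refine pr_Cr_le (g := Prod.swap) (f := Prod.swap) (fun _ _ => adj_swap) (fun _ _ => rfl)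
      Prod.swap_injective (rect_finite _ _ _ _) ?_ (fun z hz => hz) (fun z hz => hz)
    intro z hz
    simp only [rect, mem_ofPred_eq, Prod.fst_swap, Prod.snd_swap] at *
    omega
  have h2 : pr p (Cr (rect a b c d) {z | z.2 = c} {z | z.2 = d}) ≤ pr p (TB a b c d) :=
    pr_mono fun ω ⟨x, hx, y, hy, k⟩ => ⟨y, hy, x, hx, k.symm⟩
  linarith

end Pool.Agent.Lib.helper98
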