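import Pool.Agent.Lib.helper98.Prod

/-! Bond configurations on the square lattice: the edge between adjacent `a`, `b` is indexed by
`a + b`. Open connections, crossing lemmas and planar duality. -/

open Set

namespace Pool.Agent.Lib.helper98

/-- vertices of the square lattice -/
abbrev V : Type := ℤ × ℤ

/-- nearest neighbours -/
def adj (u v : V) : Prop :=
  (u.1 = v.1 ∧ (u.2 = v.2 + 1 ∨ v.2 = u.2 + 1)) ∨ (u.2 = v.2 ∧ (u.1 = v.1 + 1 ∨ v.1 = u.1 + 1))

lemma adj.symm {u v : V} (h : adj u v) : adj v u := by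
  unfold adj at *; omega

lemma adj.ne {u v : V} (h : adj u v) : u ≠ v := by
  rintro rfl; unfold adj at h; omega

lemma adj_inj {a b c d : V} (h1 : adj a b) (h2 : adj c d) (h : a + b = c + d) :
    (a = c ∧ b = d) ∨ (a = d ∧ b = c) := by
  simp only [Prod.ext_iff, Prod.fst_add, Prod.snd_add] at h ⊢
  unfold adj at *; omega

/-- open connection inside the region `R` -/
inductive Conn (ω : V → Prop) (R : Set V) (u : V) : V → Prop
  | refl : u ∈ R → Conn ω R u u
  | tail {a b : V} : Conn ω R u a → adj a b → ω (a + b) → b ∈ R → Conn ω R u b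

variable {ω ω' : V → Prop} {R S : Set V} {u v w : V}

lemma Conn.left_mem (h : Conn ω R u v) : u ∈ R := by
  induction h with
  | refl h => exact h
  | tail _ _ _ _ ih => exact ih

lemma Conn.right_mem (h : Conn ω R u v) : v ∈ R := by
  cases h with
  | refl h => exact h
  | tail _ _ _ h => exact h

lemma Conn.trans (h : Conn ω R u v) (h' : Conn ω R v w) : Conn ω R u w := by
  induction h' with
  | refl _ => exact h
  | tail _ h1 h2 h3 ih => exact ih.tail h1 h2 h3

lemma Conn.single (hu : u ∈ R) (hv : v ∈ R) (h : adj u v) (ho : ω (u + v)) : Conn ω R u v :=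
  (Conn.refl hu).tail h ho hv

lemma Conn.symm (h : Conn ω R u v) : Conn ω R v u := by
  induction h with
  | refl h => exact Conn.refl h
  | tail h0 h1 h2 h3 ih =>
    exact (Conn.single h3 h0.right_mem h1.symm (by rwa [add_comm])).trans ih

lemma Conn.imp (h : Conn ω R u v) (hR : R ⊆ S)
    (hω : ∀ a ∈ R, ∀ b ∈ R, adj a b → ω (a + b) → ω' (a + b)) : Conn ω' S u v := by
  induction h with
  | refl h => exact Conn.refl (hR h)
  | tail h0 h1 h2 h3 ih => exact ih.tail h1 (hω _ h0.right_mem _ h3 h1 h2) (hR h3)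

lemma Conn.mono (h : Conn ω R u v) (hR : R ⊆ S) : Conn ω S u v := h.imp hR fun _ _ _ _ _ h => h

lemma Conn.mono' (h : Conn ω R u v) (hω : ∀ e, ω e → ω' e) : Conn ω' R u v :=
  h.imp subset_rfl fun _ _ _ _ _ h => hω _ h

lemma Conn.reach (h : Conn ω R u v) : Conn ω {z | Conn ω R u z} u v := by
  induction h with
  | refl h => exact Conn.refl (Conn.refl h)
  | tail h0 h1 h2 h3 ih => exact ih.tail h1 h2 (h0.tail h1 h2 h3)

lemma Conn.first_exit (h : Conn ω R u v) (hu : u ∈ S) : Conn ω (R ∩ S) u v ∨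
    ∃ a b, Conn ω (R ∩ S) u a ∧ adj a b ∧ ω (a + b) ∧ b ∉ S ∧ Conn ω R b v := by
  induction h with
  | refl h => exact Or.inl (Conn.refl ⟨h, hu⟩)
  | @tail a b _ h1 h2 h3 ih =>
    rcases ih with ih | ⟨a', b', k1, k2, k3, k4, k5⟩
    · by_cases hb : b ∈ S
      · exact Or.inl (ih.tail h1 h2 ⟨h3, hb⟩)
      · exact Or.inr ⟨a, b, ih, h1, h2, hb, Conn.refl h3⟩
    · exact Or.inr ⟨a', b', k1, k2, k3, k4, k5.tail h1 h2 h3⟩

lemma Conn.first_exit' (h : Conn ω R u v) (hu : u ∈ S) (hv : v ∉ S) :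
    ∃ a b, Conn ω (R ∩ S) u a ∧ adj a b ∧ ω (a + b) ∧ b ∉ S ∧ Conn ω R b v :=
  (h.first_exit hu).resolve_left fun h' => hv h'.right_mem.2

lemma Conn.first_hit (h : Conn ω R u v) (C : Set V) :
    Conn ω (R \ C) u v ∨ ∃ a ∈ C, Conn ω (insert a (R \ C)) u a ∧ Conn ω R a v := by
  by_cases hu : u ∈ C
  · exact Or.inr ⟨u, hu, Conn.refl (mem_insert _ _), h⟩
  rcases h.first_exit (S := Cᶜ) hu with h1 | ⟨a, b, k1, k2, k3, k4, k5⟩
  · exact Or.inl h1
  · exact Or.inr ⟨b, not_not.mp k4,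
      (k1.mono (subset_insert _ _)).tail k2 k3 (mem_insert _ _), k5⟩

lemma Conn.map {g f : V → V} (hg : ∀ a b, adj a b → adj (g a) (g b))
    (hf : ∀ a b, f (a + b) = g a + g b) (hR : ∀ z ∈ R, g z ∈ S)
    (h : Conn (fun i => ω (f i)) R u v) : Conn ω S (g u) (g v) := by
  induction h with
  | refl h => exact Conn.refl (hR _ h)
  | tail _ h1 h2 h3 ih => exact ih.tail (hg _ _ h1) (by rwa [← hf]) (hR _ h3)

/-- indices of the edges inside `R` -/
def Ed (R : Set V) : Set V := {m | ∃ a ∈ R, ∃ b ∈ R, adj a b ∧ m = a + b}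

lemma Ed_finite (h : R.Finite) : (Ed R).Finite :=
  (h.image2 (· + ·) h).subset fun _ ⟨a, ha, b, hb, _, hm⟩ => ⟨a, ha, b, hb, hm.symm⟩

lemma Ed_mono (h : R ⊆ S) : Ed R ⊆ Ed S :=
  fun _ ⟨a, ha, b, hb, h1, h2⟩ => ⟨a, h ha, b, h hb, h1, h2⟩

lemma Ed_disjoint (h : Disjoint R S) : Disjoint (Ed R) (Ed S) := by
  rw [Set.disjoint_left] at h ⊢
  rintro m ⟨a, ha, b, hb, h1, rfl⟩ ⟨c, hc, d, hd, h2, h3⟩
  rcases adj_inj h1 h2 h3 with ⟨rfl, rfl⟩ | ⟨rfl, rfl⟩
  · exact h ha hc
  · exact h ha hd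

lemma Conn.congr (h : Conn ω R u v) (hω : ∀ e ∈ Ed R, (ω e ↔ ω' e)) : Conn ω' R u v :=
  h.imp subset_rfl fun a ha b hb h1 h2 => (hω _ ⟨a, ha, b, hb, h1, rfl⟩).mp h2

/-- the event that `X` is joined to `Y` inside `R` -/
def Cr (R X Y : Set V) : Set (V → Prop) := {ω | ∃ x ∈ X, ∃ y ∈ Y, Conn ω R x y}

lemma dep_Cr (R X Y : Set V) : Dep (Ed R) (Cr R X Y) :=
  fun _ _ h ⟨x, hx, y, hy, hc⟩ => ⟨x, hx, y, hy, hc.congr h⟩

lemma incr_Cr (R X Y : Set V) : Incr (Cr R X Y) :=
  fun _ _ h ⟨x, hx, y, hy, hc⟩ => ⟨x, hx, y, hy, hc.mono' h⟩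

lemma measurableSet_Cr (hR : R.Finite) (X Y : Set V) : MeasurableSet (Cr R X Y) :=
  (dep_Cr R X Y).measurableSet (Ed_finite hR)

lemma pr_Cr_le {p : ℝ} {g f : V → V} (hg : ∀ a b, adj a b → adj (g a) (g b))
    (hf : ∀ a b, f (a + b) = g a + g b) (hinj : Function.Injective f) {R X Y R' X' Y' : Set V}
    (hfin : R.Finite) (hR : ∀ z ∈ R, g z ∈ R') (hX : ∀ z ∈ X, g z ∈ X') (hY : ∀ z ∈ Y, g z ∈ Y') :
    pr p (Cr R X Y) ≤ pr p (Cr R' X' Y') := by
  rw [← pr_preimage_inj hinj (measurableSet_Cr hfin X Y)]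
  exact pr_mono fun ω ⟨x, hx, y, hy, hc⟩ => ⟨g x, hX x hx, g y, hY y hy, hc.map hg hf hR⟩

/-- lattice rectangle -/
def rect (a b c d : ℤ) : Set V := {z | a ≤ z.1 ∧ z.1 ≤ b ∧ c ≤ z.2 ∧ z.2 ≤ d}

lemma rect_eq (a b c d : ℤ) : rect a b c d = (Finset.Icc a b ×ˢ Finset.Icc c d : Finset V) := by
  ext z
  simp only [rect, Finset.coe_product, Finset.coe_Icc, mem_prod, mem_Icc, mem_ofPred_eq, and_assoc]

lemma rect_finite (a b c d : ℤ) : (rect a b c d).Finite := by
  rw [rect_eq]; exact Finset.finite_toSet _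

lemma conn_rect {a b c d : ℤ} (hω : ∀ x ∈ rect a b c d, ∀ y ∈ rect a b c d, adj x y → ω (x + y))
    (hu : u ∈ rect a b c d) : Conn ω (rect a b c d) (a, c) u := by
  obtain ⟨i, j⟩ := u
  obtain ⟨h1, h2, h3, h4⟩ := hu
  simp only at h1 h2 h3 h4
  induction j, h3 using Int.leInduction with
  | base =>
    induction i, h1 using Int.leInduction with
    | base => exact Conn.refl ⟨le_rfl, h2, le_rfl, h4⟩
    | succ i hi ih =>
      have m : (i + 1, c) ∈ rect a b c d := ⟨by simp; omega, h2, le_rfl, h4⟩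
      have k := ih (by omega)
      have ha : adj (i, c) (i + 1, c) := by simp [adj]
      exact k.tail ha (hω _ k.right_mem _ m ha) m
  | succ j hj ih =>
    have m : (i, j + 1) ∈ rect a b c d := ⟨h1, h2, by simp; omega, h4⟩
    have k := ih (by omega)
    have ha : adj (i, j) (i, j + 1) := by simp [adj]
    exact k.tail ha (hω _ k.right_mem _ m ha) m

/-- the dual configuration; the dual vertex `a` is the face with lower left corner `a` -/
def dual (ω : V → Prop) : V → Prop := fun m => ¬ω (m + (1, 1))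

lemma winding {c d : ℤ} (h : Conn ω R u v) (hR : ∀ z ∈ R, c ≤ z.2 ∧ z.2 ≤ d) :
    ∃ H : ℤ → ℤ → ℤ,
      (∀ i j, ¬ω (2 * i + 1, 2 * j) → H i (j - 1) = H i j) ∧
      (∀ i j, ¬ω (2 * i, 2 * j + 1) → H (i - 1) j - H i j =
        (if v.1 = i ∧ j < v.2 then 1 else 0) - (if u.1 = i ∧ j < u.2 then 1 else 0)) ∧
      (∀ i j, d ≤ j → H i j = 0) ∧
      (∀ i j, j < c → H i j = (if u.1 ≤ i then 1 else 0) - (if v.1 ≤ i then 1 else 0)) := by
  induction h with
  | refl _ => exact ⟨fun _ _ => 0, by simp, by simp, by simp, by simp⟩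
  | @tail a b h0 h1 h2 h3 ih =>
    obtain ⟨H, i1, i2, i3, i4⟩ := ih
    have ha := hR a h0.right_mem
    have hb := hR b h3
    have key : ∀ x y : ℤ, ¬ω (x, y) → ¬(a.1 + b.1 = x ∧ a.2 + b.2 = y) := by
      rintro x y hn ⟨rfl, rfl⟩; exact hn h2
    refine ⟨fun i j => H i j + (if a.1 = i ∧ b.1 = i + 1 ∧ j < a.2 then 1 else 0) -
      (if b.1 = i ∧ a.1 = i + 1 ∧ j < a.2 then 1 else 0), ?_, ?_, ?_, ?_⟩
    · intro i j hn
      have e1 := i1 i j hn
      have e2 := key _ _ hn
      unfold adj at h1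
      beta_reduce
      split_ifs <;> omega
    · intro i j hn
      have e1 := i2 i j hn
      have e2 := key _ _ hn
      unfold adj at h1
      beta_reduce
      split_ifs at e1 ⊢ <;> omega
    · intro i j hj
      have e1 := i3 i j hj
      beta_reduce
      split_ifs <;> omega
    · intro i j hj
      have e1 := i4 i j hj
      unfold adj at h1
      beta_reduce
      split_ifs at e1 ⊢ <;> omega

/-- an open horizontal crossing and a dual open vertical crossing cannot coexist -/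
lemma no_cross {P Q : Set V} {x y : V} {a b c d : ℤ} (h1 : Conn ω P u v)
    (hP : ∀ z ∈ P, c ≤ z.2 ∧ z.2 ≤ d) (hu : u.1 ≤ a) (hv : b ≤ v.1)
    (h2 : Conn (dual ω) Q x y) (hQ : ∀ z ∈ Q, a ≤ z.1 ∧ z.1 < b) (hx : d ≤ x.2) (hy : y.2 < c) :
    False := by
  obtain ⟨H, i1, i2, i3, i4⟩ := winding h1 hP
  have key : H y.1 y.2 = 0 := by
    clear hy
    induction h2 with
    | refl _ => exact i3 _ _ hx
    | @tail s t k0 k1 k2 k3 ih =>
      have hs := hQ s k0.right_mem
      have ht := hQ t k3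
      obtain ⟨s1, s2⟩ := s
      obtain ⟨t1, t2⟩ := t
      simp only [dual, Prod.mk_add_mk] at k2 hs ht ih ⊢
      rcases k1 with ⟨e1, e2 | e2⟩ | ⟨e1, e2 | e2⟩ <;> simp only at e1 e2 <;> subst e1 e2
      · have := i1 s1 (t2 + 1) (by convert k2 using 3 <;> ring)
        rw [add_sub_cancel_right] at this
        rw [this, ih]
      · have := i1 s1 (s2 + 1) (by convert k2 using 3 <;> ring)
        rw [add_sub_cancel_right] at this
        rw [← this, ih]
      · have := i2 (t1 + 1) s2 (by convert k2 using 3 <;> ring)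
        rw [add_sub_cancel_right] at this
        split_ifs at this <;> omega
      · have := i2 (s1 + 1) s2 (by convert k2 using 3 <;> ring)
        rw [add_sub_cancel_right] at this
        split_ifs at this <;> omega
  have hy' := hQ y h2.right_mem
  have := i4 y.1 y.2 hy
  split_ifs at this <;> omega

/-- a horizontal and a vertical crossing meet -/
lemma cross_meet {P Q : Set V} {x y : V} {a b c d : ℤ} (h1 : Conn ω P u v)
    (hP : ∀ z ∈ P, c ≤ z.2 ∧ z.2 ≤ d) (hu : u.1 ≤ a) (hv : b ≤ v.1)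
    (h2 : Conn ω' Q x y) (hQ : ∀ z ∈ Q, a ≤ z.1 ∧ z.1 ≤ b) (hx : d ≤ x.2) (hy : y.2 ≤ c) :
    ∃ z, Conn ω P u z ∧ Conn ω' Q x z := by
  by_contra hcon
  push Not at hcon
  let P' : Set V := insert (v + (1, 0)) {z | Conn ω P u z}
  let η : V → Prop := fun m => m ∈ Ed P'
  have k1 : Conn η P' u (v + (1, 0)) := by
    have a1 : adj v (v + (1, 0)) := by simp [adj]
    refine Conn.tail (h1.reach.imp (subset_insert _ _) ?_) a1 ?_ (mem_insert _ _)
    · exact fun s hs t ht hst _ => ⟨s, Or.inr hs, t, Or.inr ht, hst, rfl⟩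
    · exact ⟨v, Or.inr h1, _, Or.inl rfl, a1, rfl⟩
  have free : ∀ s t : V, Conn ω' Q x s → adj s t → ¬η (s + t) := by
    rintro s t hs hst ⟨s', hs', t', ht', hst', he⟩
    have hsP : s ∈ P' := by
      rcases adj_inj hst hst' he with ⟨rfl, rfl⟩ | ⟨rfl, rfl⟩
      · exact hs'
      · exact ht'
    rcases hsP with rfl | hsP
    · have := (hQ _ hs.right_mem).2
      simp at this; omega
    · exact hcon s hsP hs
  let Q' : Set V := {z | a ≤ z.1 ∧ z.1 ≤ b}
  have k2 : ∀ y, Conn ω' Q x y → Conn (dual η) Q' x y := by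
    intro y h2
    induction h2 with
    | refl h => exact Conn.refl (hQ _ h)
    | @tail s t k0 k1 k2 k3 ih =>
      refine ih.tail k1 ?_ (hQ _ k3)
      have f1 := free s
      have f2 := free t
      have ht := k0.tail k1 k2 k3
      obtain ⟨s1, s2⟩ := s
      obtain ⟨t1, t2⟩ := t
      rcases k1 with ⟨e1, e2 | e2⟩ | ⟨e1, e2 | e2⟩ <;> simp only at e1 e2 <;> subst e1 e2
      · have := f1 (s1 + 1, t2 + 1) k0 (by simp [adj])
        simp only [dual, Prod.mk_add_mk] at this ⊢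
        convert this using 3 <;> ring
      · have := f2 (s1 + 1, s2 + 1) ht (by simp [adj])
        simp only [dual, Prod.mk_add_mk] at this ⊢
        convert this using 3 <;> ring
      · have := f1 (t1 + 1, s2 + 1) k0 (by simp [adj])
        simp only [dual, Prod.mk_add_mk] at this ⊢
        convert this using 3 <;> ring
      · have := f2 (s1 + 1, s2 + 1) ht (by simp [adj])
        simp only [dual, Prod.mk_add_mk] at this ⊢
        convert this using 3 <;> ring
  have k3 : Conn (dual η) Q' x (y - (0, 1)) := by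
    refine (k2 y h2).tail (by simp [adj]) ?_ (by simpa [Q'] using hQ _ h2.right_mem)
    have := free y (y + (1, 0)) h2 (by simp [adj])
    unfold dual
    convert this using 2
    ext <;> simp <;> ring
  refine no_cross (a := a) (b := b + 1) (c := c) (d := d) k1 ?_ hu (by simp; omega) k3 ?_ hx
    (by simp; omega)
  · rintro z (rfl | hz)
    · simpa using hP _ h1.right_mem
    · exact hP _ (Conn.right_mem hz)
  · rintro z ⟨hz1, hz2⟩; omega

lemma stokes (m n : ℕ) (A D : ℕ → ℕ → ℤ) (hl : ∀ j ≤ n, A 0 j = 1) (hr : ∀ j ≤ n, A m j = 0)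
    (hb : ∀ i < m, D i 0 = 0) (ht : ∀ i < m, D i (n + 1) = 1)
    (hh : ∀ i < m, ∀ j ≤ n, (A (i + 1) j - A i j) * (D i (j + 1) - D i j) = 0)
    (hv : ∀ i, i + 1 < m → ∀ j < n,
      (A (i + 1) (j + 1) - A (i + 1) j) * (D (i + 1) (j + 1) - D i (j + 1)) = 0) : False := by
  have up : ∀ j ≤ n, ∑ i ∈ Finset.range m, (A (i + 1) j - A i j) * D i (j + 1) =
      ∑ i ∈ Finset.range m, (A (i + 1) j - A i j) * D i j := by
    intro j hj
    refine Finset.sum_congr rfl fun i hi => ?_
    have := hh i (Finset.mem_range.mp hi) j hj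
    linarith
  have parts : ∀ j < n, ∀ k, k < m → ∑ i ∈ Finset.range (k + 1),
      ((A (i + 1) (j + 1) - A i (j + 1)) * D i (j + 1) - (A (i + 1) j - A i j) * D i (j + 1)) =
      D k (j + 1) * (A (k + 1) (j + 1) - A (k + 1) j) := by
    intro j hj k
    induction k with
    | zero => intro _; simp [hl j hj.le, hl (j + 1) hj]; ring
    | succ k ih =>
      intro hk
      rw [Finset.sum_range_succ, ih (by omega)]
      have := hv k hk j hj
      linarith
  have main : ∀ j ≤ n, ∑ i ∈ Finset.range m, (A (i + 1) j - A i j) * D i (j + 1) = 0 := by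
    intro j
    induction j with
    | zero =>
      intro h
      rw [up 0 h]
      exact Finset.sum_eq_zero fun i hi => by rw [hb i (Finset.mem_range.mp hi), mul_zero]
    | succ j ih =>
      intro h
      rw [up _ h]
      rcases m with _ | m
      · simp
      have h1 := parts j h m (by omega)
      rw [Finset.sum_sub_distrib, ih (by omega), hr j (by omega), hr (j + 1) h] at h1
      simpa using h1
  have h1 := main n le_rfl
  rw [Finset.sum_congr rfl (g := fun i => A (i + 1) n - A i n)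
    (fun i hi => by rw [ht i (Finset.mem_range.mp hi), mul_one]),
    Finset.sum_range_sub (fun i => A i n), hl n le_rfl, hr n le_rfl] at h1
  norm_num at h1

/-- planar duality for rectangles -/
lemma duality {a b c d : ℤ} (hab : a ≤ b) (hcd : c ≤ d)
    (h : ω ∉ Cr (rect a b c d) {z | z.1 = a} {z | z.1 = b}) :
    dual ω ∈ Cr (rect a (b - 1) (c - 1) d) {z | z.2 = d} {z | z.2 = c - 1} := by
  classical
  by_contra h'
  obtain ⟨m, rfl⟩ : ∃ m : ℕ, b = a + m := ⟨(b - a).toNat, by omega⟩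
  obtain ⟨n, rfl⟩ : ∃ n : ℕ, d = c + n := ⟨(d - c).toNat, by omega⟩
  let α : V → Prop := fun z => ∃ x : V, x.1 = a ∧ Conn ω (rect a (a + m) c (c + n)) x z
  let δ : V → Prop := fun z => ∃ x : V, x.2 = c + n ∧
    Conn (dual ω) (rect a (a + m - 1) (c - 1) (c + n)) x z
  have hα : ∀ s ∈ rect a (a + m) c (c + n), ∀ t ∈ rect a (a + m) c (c + n), adj s t → ω (s + t) →
      (α s ↔ α t) := fun s hs t ht h1 h2 =>
    ⟨fun ⟨x, hx, k⟩ => ⟨x, hx, k.tail h1 h2 ht⟩,
      fun ⟨x, hx, k⟩ => ⟨x, hx, k.tail h1.symm (by rwa [add_comm]) hs⟩⟩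
  have hδ : ∀ s ∈ rect a (a + m - 1) (c - 1) (c + n), ∀ t ∈ rect a (a + m - 1) (c - 1) (c + n),
      adj s t → dual ω (s + t) → (δ s ↔ δ t) := fun s hs t ht h1 h2 =>
    ⟨fun ⟨x, hx, k⟩ => ⟨x, hx, k.tail h1 h2 ht⟩,
      fun ⟨x, hx, k⟩ => ⟨x, hx, k.tail h1.symm (by rwa [add_comm]) hs⟩⟩
  refine stokes m n (fun i j => if α (a + i, c + j) then 1 else 0)
    (fun i j => if δ (a + i, c + j - 1) then 1 else 0) ?_ ?_ ?_ ?_ ?_ ?_
  · intro j hj
    exact if_pos ⟨_, by simp, Conn.refl (by simp [rect]; omega)⟩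
  · intro j hj
    exact if_neg fun ⟨x, hx, k⟩ => h ⟨x, hx, _, rfl, k⟩
  · intro i hi
    exact if_neg fun ⟨x, hx, k⟩ => h' ⟨x, hx, _, by simp, k⟩
  · intro i hi
    exact if_pos ⟨_, by simp; ring, Conn.refl (by simp [rect]; omega)⟩
  · intro i hi j hj
    by_cases ho : ω ((a + i, c + j) + (a + (i + 1 : ℕ), c + j))
    · have := hα _ (by simp [rect]; omega) _ (by simp [rect]; omega) (by simp [adj]; omega) ho
      simp only [this, sub_self, zero_mul]
    · have := hδ (a + i, c + (j + 1 : ℕ) - 1) (by simp [rect]; omega) (a + i, c + j - 1)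
        (by simp [rect]; omega) (by simp [adj]; omega) (by
          unfold dual
          convert ho using 2
          ext <;> simp <;> ring)
      simp only [this, sub_self, mul_zero]
  · intro i hi j hj
    by_cases ho : ω ((a + (i + 1 : ℕ), c + (j + 1 : ℕ)) + (a + (i + 1 : ℕ), c + j))
    · have := hα _ (by simp [rect]; omega) _ (by simp [rect]; omega) (by simp [adj]; omega) ho
      simp only [this, sub_self, zero_mul]
    · have := hδ (a + (i + 1 : ℕ), c + (j + 1 : ℕ) - 1) (by simp [rect]; omega)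
        (a + i, c + (j + 1 : ℕ) - 1) (by simp [rect]; omega) (by simp [adj]; omega) (by
          unfold dual
          convert ho using 2
          ext <;> simp <;> ring)
      simp only [this, sub_self, mul_zero]

end Pool.Agent.Lib.helper98
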