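import Pool.Agent.Lib.helper98.Planar

/-! Sharpness of the phase transition, following Duminil-Copin and Tassion. -/

open Set

namespace Pool.Agent.Lib.helper98

/-- box of radius `n` around `x` -/
def box (x : V) (n : ℤ) : Set V := rect (x.1 - n) (x.1 + n) (x.2 - n) (x.2 + n)

lemma box_finite (x : V) (n : ℤ) : (box x n).Finite := rect_finite _ _ _ _

lemma mem_box {x z : V} {n : ℤ} :
    z ∈ box x n ↔ x.1 - n ≤ z.1 ∧ z.1 ≤ x.1 + n ∧ x.2 - n ≤ z.2 ∧ z.2 ≤ x.2 + n := Iff.rfl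

lemma adj_mem_box {x a b : V} {n : ℤ} (ha : a ∈ box x (n - 1)) (h : adj a b) : b ∈ box x n := by
  rw [mem_box] at *; unfold adj at h; omega

lemma box_mono {x : V} {n m : ℤ} (h : n ≤ m) : box x n ⊆ box x m := by
  intro z hz; rw [mem_box] at *; omega

variable {ω : V → Prop} {R : Set V} {u v : V} {p : ℝ}

lemma Conn.exit_box (h : Conn ω R u v) {x : V} {n : ℤ} (hu : u ∈ box x n)
    (hv : v ∉ box x (n - 1)) : ∃ b, b ∉ box x (n - 1) ∧ Conn ω (R ∩ box x n) u b := by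
  by_cases hu' : u ∈ box x (n - 1)
  · obtain ⟨a, b, k1, k2, k3, k4, k5⟩ := h.first_exit' hu' hv
    exact ⟨b, k4, (k1.mono (inter_subset_inter_right _ (box_mono (by omega)))).tail k2 k3
      ⟨k5.left_mem, adj_mem_box k1.right_mem.2 k2⟩⟩
  · exact ⟨u, hu', Conn.refl ⟨h.left_mem, hu⟩⟩

lemma pr_Cr_shift (t : V) {R X Y R' X' Y' : Set V} (hfin : R.Finite) (hR : ∀ z ∈ R, z + t ∈ R')
    (hX : ∀ z ∈ X, z + t ∈ X') (hY : ∀ z ∈ Y, z + t ∈ Y') :
    pr p (Cr R X Y) ≤ pr p (Cr R' X' Y') :=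
  pr_Cr_le (g := fun z => z + t) (f := fun z => z + (t + t))
    (fun a b h => by unfold adj at *; simp only [Prod.fst_add, Prod.snd_add]; omega)
    (fun a b => by abel) (add_left_injective _) hfin hR hX hY

/-- the one-arm event -/
def Arm (x : V) (n : ℤ) : Set (V → Prop) := Cr (box x n) {x} (box x (n - 1))ᶜ

/-- the one-arm probability -/
noncomputable def θ (p : ℝ) (n : ℤ) : ℝ := pr p (Arm 0 n)

lemma pr_arm_le (x : V) (n : ℤ) : pr p (Arm x n) ≤ θ p n := by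
  refine pr_Cr_shift (-x) (box_finite _ _) ?_ ?_ ?_
  · intro z hz; rw [mem_box] at *; simp; omega
  · rintro z rfl; simp
  · intro z hz h; apply hz; rw [mem_box] at *; simp at h; omega

lemma θ_nonneg (p : ℝ) (n : ℤ) : 0 ≤ θ p n := pr_nonneg _ _
lemma θ_le_one (p : ℝ) (n : ℤ) : θ p n ≤ 1 := pr_le_one _ _

lemma mem_arm {x y : V} {n : ℤ} (hn : 0 ≤ n) (h : Conn ω R x y) (hy : y ∉ box x (n - 1)) :
    ω ∈ Cr (R ∩ box x n) {x} (box x (n - 1))ᶜ := by
  obtain ⟨b, h1, h2⟩ := h.exit_box (x := x) (n := n) (by rw [mem_box]; omega) hy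
  exact ⟨x, rfl, b, h1, h2⟩

lemma Cr_mono {R R' X Y : Set V} (h : R ⊆ R') : Cr R X Y ⊆ Cr R' X Y :=
  fun _ ⟨x, hx, y, hy, k⟩ => ⟨x, hx, y, hy, k.mono h⟩

lemma θ_anti {n m : ℤ} (hn : 0 ≤ n) (h : n ≤ m) : θ p m ≤ θ p n := by
  refine pr_mono ?_
  rintro ω ⟨x, rfl, y, hy, k⟩
  exact Cr_mono inter_subset_right (mem_arm hn k fun h' => hy (box_mono (by omega) h'))

lemma bd_finite (S : Finset V) : {q : V × V | q.1 ∈ S ∧ q.2 ∉ S ∧ adj q.1 q.2}.Finite := by
  refine (S.finite_toSet.prod (S.finite_toSet.biUnion fun x _ => box_finite x 1)).subset ?_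
  rintro q ⟨h1, -, h3⟩
  refine ⟨h1, mem_iUnion₂.mpr ⟨q.1, h1, adj_mem_box (by rw [mem_box]; omega) h3⟩⟩

/-- oriented edge boundary -/
noncomputable def bd (S : Finset V) : Finset (V × V) := (bd_finite S).toFinset

lemma mem_bd {S : Finset V} {q : V × V} : q ∈ bd S ↔ q.1 ∈ S ∧ q.2 ∉ S ∧ adj q.1 q.2 := by
  simp [bd]

/-- the Duminil-Copin Tassion quantity (without the factor `p`) -/
noncomputable def ψ (p : ℝ) (S : Finset V) : ℝ := ∑ q ∈ bd S, pr p (Cr S {0} {q.1})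

lemma ψ_nonneg (p : ℝ) (S : Finset V) : 0 ≤ ψ p S := Finset.sum_nonneg fun _ _ => pr_nonneg _ _

open Classical in
/-- cluster of the origin inside `S` -/
noncomputable def clus (S : Finset V) (ω : V → Prop) : Finset V := S.filter fun z => Conn ω S 0 z

lemma mem_clus {S : Finset V} {z : V} : z ∈ clus S ω ↔ Conn ω S 0 z := by
  simp only [clus, Finset.mem_filter, and_iff_right_iff_imp]
  exact fun h => h.right_mem

lemma dep_clus (S C : Finset V) :
    Dep {m | ∃ a ∈ C, ∃ b ∈ S, adj a b ∧ m = a + b} {ω | clus S ω = C} := by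
  intro ω ω' h hC
  rw [mem_ofPred_eq] at hC ⊢
  subst hC
  ext z
  rw [mem_clus, mem_clus]
  constructor
  · intro k
    induction k with
    | refl k => exact Conn.refl k
    | tail _ k1 k2 k3 ih => exact ih.tail k1 ((h _ ⟨_, mem_clus.mpr ih, _, k3, k1, rfl⟩).mpr k2) k3
  · intro k
    exact k.reach.imp (fun t ht => Conn.right_mem ht) fun a ha b hb k1 k2 =>
      (h _ ⟨a, mem_clus.mpr ha, b, Conn.right_mem hb, k1, rfl⟩).mp k2

lemma measurableSet_clus (S C : Finset V) : MeasurableSet {ω | clus S ω = C} :=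
  (dep_clus S C).measurableSet ((C.finite_toSet.image2 (· + ·) S.finite_toSet).subset
    fun _ ⟨a, ha, b, hb, _, hm⟩ => ⟨a, ha, b, hb, hm.symm⟩)

lemma θ_step {S : Finset V} (h0 : (0 : V) ∈ S) {L n : ℤ} (hS : (S : Set V) ⊆ box 0 (L - 1))
    (hn : 0 ≤ n) : θ p (n + L) ≤ ψ p S * θ p n := by
  classical
  have step1 : θ p (n + L) ≤ ∑ q ∈ bd S, ∑ C ∈ S.powerset.filter (fun C => q.1 ∈ C),
      pr p ({ω | clus S ω = C} ∩ Cr (box q.2 n \ C) {q.2} (box q.2 (n - 1))ᶜ) := by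
    rw [Finset.sum_sigma']
    refine pr_le_sum _ _ ?_
    rintro ω ⟨x, rfl, y, hy, k⟩
    have hyC : y ∈ ((clus S ω : Finset V) : Set V)ᶜ := fun h =>
      hy (box_mono (by omega) (hS (mem_clus.mp h).right_mem))
    have h0C : (0 : V) ∉ ((clus S ω : Finset V) : Set V)ᶜ := fun h =>
      h (mem_clus.mpr (Conn.refl h0))
    obtain ⟨a, b, k1, k2, k3, k4, -⟩ := k.symm.first_exit' hyC h0C
    have hb : Conn ω S 0 b := mem_clus.mp (not_not.mp k4)
    have ha : a ∉ S := fun h =>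
      k1.right_mem.2 (mem_clus.mpr (hb.tail k2.symm (by rwa [add_comm]) h))
    have haL := adj_mem_box (hS hb.right_mem) k2.symm
    refine ⟨⟨(b, a), clus S ω⟩, ?_, rfl, ?_⟩
    · simp only [Finset.mem_sigma, mem_bd, Finset.mem_filter, Finset.mem_powerset]
      exact ⟨⟨hb.right_mem, ha, k2.symm⟩, Finset.filter_subset _ _, mem_clus.mpr hb⟩
    · refine Cr_mono ?_ (mem_arm hn k1.symm ?_)
      · exact fun z hz => ⟨hz.2, hz.1.2⟩
      · intro h; apply hy; rw [mem_box] at *; dsimp only at h; omega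
  refine step1.trans ?_
  rw [ψ, Finset.sum_mul]
  refine Finset.sum_le_sum fun q _ => ?_
  have step2 : ∑ C ∈ S.powerset.filter (fun C => q.1 ∈ C), pr p {ω | clus S ω = C} ≤
      pr p (Cr S {0} {q.1}) := by
    refine sum_pr_le _ _ (fun C _ => measurableSet_clus S C) ?_ ?_
    · intro C _ D _ hCD
      exact Set.disjoint_left.mpr fun ω h1 h2 => hCD (h1.symm.trans h2)
    · intro C hC ω hω
      rw [Finset.mem_filter] at hC
      exact ⟨0, rfl, q.1, rfl, mem_clus.mp (by rw [hω]; exact hC.2)⟩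
  refine le_trans ?_ (mul_le_mul_of_nonneg_right step2 (θ_nonneg p n))
  rw [Finset.sum_mul]
  refine Finset.sum_le_sum fun C _ => ?_
  rw [pr_inter_of_disjoint (dep_clus S C) (dep_Cr _ _ _)
    ((C.finite_toSet.image2 (· + ·) S.finite_toSet).subset
      fun _ ⟨a, ha, b, hb, _, hm⟩ => ⟨a, ha, b, hb, hm.symm⟩) (Ed_finite (box_finite _ _).sdiff)]
  · exact mul_le_mul_of_nonneg_left
      ((pr_mono (Cr_mono sdiff_subset)).trans (pr_arm_le q.2 n)) (pr_nonneg _ _)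
  · rw [Set.disjoint_left]
    rintro m ⟨a, ha, b, -, h1, rfl⟩ ⟨c, hc, d, hd, h2, h3⟩
    rcases adj_inj h1 h2 h3 with ⟨rfl, rfl⟩ | ⟨rfl, rfl⟩
    · exact hc.2 ha
    · exact hd.2 ha

lemma θ_pow {S : Finset V} (h0 : (0 : V) ∈ S) {L : ℕ} (hS : (S : Set V) ⊆ box 0 (L - 1))
    (k : ℕ) : θ p (k * L : ℕ) ≤ ψ p S ^ k := by
  induction k with
  | zero => simpa using θ_le_one p 0
  | succ k ih =>
    have := θ_step (p := p) h0 hS (n := (k * L : ℕ)) (by positivity)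
    rw [pow_succ']
    refine le_trans (le_of_eq ?_) (this.trans (mul_le_mul_of_nonneg_left ih (ψ_nonneg p S)))
    congr 1; push_cast; ring

open Classical in
/-- vertices of the box not joined to its boundary -/
noncomputable def iso (n : ℤ) (ω : V → Prop) : Finset V :=
  (box_finite 0 (n - 1)).toFinset.filter fun z => ω ∉ Cr (box 0 n) {z} (box 0 (n - 1))ᶜ

lemma mem_iso {n : ℤ} {z : V} :
    z ∈ iso n ω ↔ z ∈ box 0 n ∧ ω ∉ Cr (box 0 n) {z} (box 0 (n - 1))ᶜ := by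
  simp only [iso, Finset.mem_filter, Finite.mem_toFinset]
  refine and_congr_left fun h => ⟨fun h' => box_mono (by omega) h', fun h' => ?_⟩
  by_contra h''
  exact h ⟨z, rfl, z, h'', Conn.refl h'⟩

lemma dep_iso (n : ℤ) (S : Finset V) : Dep (Ed (box 0 n) \ Ed S) {ω | iso n ω = S} := by
  intro ω ω' h hS
  rw [mem_ofPred_eq] at hS ⊢
  subst hS
  have notin : ∀ a b, adj a b → b ∉ iso n ω → a + b ∉ Ed (iso n ω : Set V) := by
    rintro a b h1 hb ⟨c, hc, d, hd, h2, h3⟩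
    rcases adj_inj h1 h2 h3 with ⟨rfl, rfl⟩ | ⟨rfl, rfl⟩
    · exact hb hd
    · exact hb hc
  ext z
  constructor
  · intro hz
    rw [mem_iso] at hz ⊢
    refine ⟨hz.1, ?_⟩
    rintro ⟨x, rfl, y, hy, k⟩
    refine hz.2 ⟨x, rfl, y, hy, k.reach.imp (fun t ht => Conn.right_mem ht) ?_⟩
    intro a ha b hb k1 k2
    refine (h _ ⟨⟨a, Conn.right_mem ha, b, Conn.right_mem hb, k1, rfl⟩, notin a b k1 ?_⟩).mp k2
    exact fun hb' => (mem_iso.mp hb').2 ⟨b, rfl, y, hy, (Conn.symm hb).trans k⟩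
  · intro hz
    rw [mem_iso]
    refine ⟨(mem_iso.mp hz).1, ?_⟩
    rintro ⟨x, rfl, y, hy, k⟩
    have : y ∈ iso n ω := by
      clear hy
      induction k with
      | refl _ => exact hz
      | @tail a b k0 k1 k2 k3 ih =>
        by_contra hb
        have k4 := (h _ ⟨⟨a, k0.right_mem, b, k3, k1, rfl⟩, notin a b k1 hb⟩).mpr k2
        rw [mem_iso, not_and, not_not] at hb
        obtain ⟨x', rfl, y', hy', k5⟩ := hb k3
        exact (mem_iso.mp ih).2 ⟨a, rfl, y', hy', (Conn.single k0.right_mem k3 k1 k4).trans k5⟩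
    exact (mem_iso.mp this).2 ⟨y, rfl, y, hy, Conn.refl k.right_mem⟩

lemma sum_piv_ge {n : ℤ} (hn : 0 ≤ n) (hψ : ∀ S : Finset V, (0 : V) ∈ S → 1 ≤ ψ p S) :
    1 - θ p n ≤ ∑ e ∈ (Ed_finite (box_finite 0 n)).toFinset, pr p (Piv {e} (Arm 0 n)) := by
  classical
  set EF := (Ed_finite (box_finite 0 n)).toFinset with hEF
  set T := (box_finite (0 : V) (n - 1)).toFinset.powerset.filter fun S => (0 : V) ∈ S with hT
  have hfin := Ed_finite (box_finite (0 : V) n)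
  have mI : ∀ S : Finset V, MeasurableSet {ω | iso n ω = S} := fun S =>
    (dep_iso n S).measurableSet hfin.sdiff
  have s1 : ∀ e, ∑ S ∈ T, pr p (Piv {e} (Arm 0 n) ∩ {ω | iso n ω = S}) ≤
      pr p (Piv {e} (Arm 0 n)) := by
    intro e
    refine sum_pr_le _ _ (fun S _ => (((dep_Cr _ _ _).piv _).measurableSet hfin).inter (mI S))
      ?_ fun S _ => inter_subset_left
    intro C _ D _ hCD
    exact Set.disjoint_left.mpr fun ω h1 h2 => hCD (h1.2.symm.trans h2.2)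
  refine le_trans ?_ (Finset.sum_le_sum fun e _ => s1 e)
  rw [Finset.sum_comm]
  have s2 : 1 - θ p n ≤ ∑ S ∈ T, pr p {ω | iso n ω = S} := by
    rw [θ, Arm, ← pr_compl (measurableSet_Cr (box_finite _ _) _ _)]
    refine pr_le_sum _ _ fun ω hω => ⟨iso n ω, ?_, rfl⟩
    rw [hT, Finset.mem_filter, Finset.mem_powerset]
    exact ⟨Finset.filter_subset _ _, mem_iso.mpr ⟨by rw [mem_box]; simp; omega, hω⟩⟩
  refine s2.trans (Finset.sum_le_sum fun S hS => ?_)
  rw [hT, Finset.mem_filter, Finset.mem_powerset] at hS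
  have hSb : ∀ z ∈ S, z ∈ box 0 (n - 1) := fun z hz => by simpa using hS.1 hz
  have s3 : ∑ q ∈ bd S, pr p (Piv {q.1 + q.2} (Arm 0 n) ∩ {ω | iso n ω = S}) ≤
      ∑ e ∈ EF, pr p (Piv {e} (Arm 0 n) ∩ {ω | iso n ω = S}) := by
    rw [← Finset.sum_image (g := fun q : V × V => q.1 + q.2)
      (f := fun e => pr p (Piv {e} (Arm 0 n) ∩ {ω | iso n ω = S}))]
    · refine Finset.sum_le_sum_of_subset_of_nonneg ?_ fun _ _ _ => pr_nonneg _ _
      intro e he
      obtain ⟨q, hq, rfl⟩ := Finset.mem_image.mp he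
      rw [mem_bd] at hq
      rw [hEF, Finite.mem_toFinset]
      exact ⟨q.1, box_mono (by omega) (hSb _ hq.1), q.2, adj_mem_box (hSb _ hq.1) hq.2.2,
        hq.2.2, rfl⟩
    · intro q hq r hr h
      rw [Finset.mem_coe, mem_bd] at hq hr
      rcases adj_inj hq.2.2 hr.2.2 h with ⟨h1, h2⟩ | ⟨h1, h2⟩
      · exact Prod.ext h1 h2
      · exact (hr.2.1 (h1 ▸ hq.1)).elim
  refine le_trans ?_ s3
  refine (le_mul_of_one_le_left (pr_nonneg _ _) (hψ S hS.2)).trans ?_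
  rw [ψ, Finset.sum_mul]
  refine Finset.sum_le_sum fun q hq => ?_
  rw [mem_bd] at hq
  rw [← pr_inter_of_disjoint (dep_Cr _ _ _) (dep_iso n S) (Ed_finite S.finite_toSet) hfin.sdiff
    disjoint_sdiff_right]
  refine pr_mono ?_
  rintro ω ⟨⟨x, rfl, y, rfl, k⟩, hI⟩
  refine ⟨⟨?_, ?_⟩, hI⟩
  · have h2 := adj_mem_box (hSb _ hq.1) hq.2.2
    have h3 : q.2 ∉ iso n ω := by rw [hI]; exact hq.2.1
    rw [mem_iso, not_and, not_not] at h3
    obtain ⟨x', rfl, y', hy', k'⟩ := h3 h2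
    refine ⟨0, rfl, y', hy', Conn.trans ?_ (k'.mono' (le_ovr_true _ _))⟩
    refine ((k.mono fun z hz => box_mono (by omega) (hSb z hz)).mono' (le_ovr_true _ _)).tail
      hq.2.2 ?_ h2
    rw [ovr_of_mem (mem_singleton _)]; trivial
  · intro h
    have h0 : (0 : V) ∈ iso n ω := by rw [hI]; exact hS.2
    exact (mem_iso.mp h0).2 (incr_Cr _ _ _ _ _ (ovr_false_le _ _) h)

lemma θ_mono_param {q : ℝ} (hp0 : 0 ≤ p) (hpq : p ≤ q) (hq : q ≤ 1) (n : ℤ) : θ p n ≤ θ q n :=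
  pr_mono_param hp0 hpq hq (Ed_finite (box_finite _ _)) (dep_Cr _ _ _) (incr_Cr _ _ _)

lemma θ_lower {q : ℝ} (hp0 : 0 < p) (hpq : p < q) (hq : q < 1)
    (hψ : ∀ S : Finset V, (0 : V) ∈ S → 1 ≤ ψ p S) {n : ℤ} (hn : 0 ≤ n) :
    (q - p) / 2 ≤ θ q n := by
  have hd : ∀ s ∈ Icc p q, HasDerivAt (fun s => θ s n)
      (∑ e ∈ (Ed_finite (box_finite 0 n)).toFinset, pr s (Piv {e} (Arm 0 n))) s := fun s hs =>
    russo (hp0.trans_le hs.1) (hs.2.trans_lt hq) _ (by simpa [Arm] using dep_Cr _ _ _) (incr_Cr _ _ _)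
  obtain ⟨c, hc, h⟩ := exists_hasDerivAt_eq_slope (fun s => θ s n) _ hpq
    (fun s hs => (hd s hs).continuousAt.continuousWithinAt) fun s hs => hd s (Ioo_subset_Icc_self hs)
  have h1 := sum_piv_ge (p := c) hn fun S hS => (hψ S hS).trans (Finset.sum_le_sum fun r _ =>
    pr_mono_param hp0.le hc.1.le (hc.2.trans hq).le (Ed_finite S.finite_toSet) (dep_Cr _ _ _)
      (incr_Cr _ _ _))
  rw [h, le_div_iff₀ (by linarith)] at h1
  have h2 := θ_mono_param (hp0.trans hc.1).le hc.2.le hq.le n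
  have h3 := θ_nonneg p n
  have h4 := θ_nonneg q n
  nlinarith

end Pool.Agent.Lib.helper98
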