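import Pool.Agent.Lib.helper98.Sharp

/-! No percolation below one half (Zhang's argument with a counting substitute for uniqueness),
and exponential decay of the one-arm probability for `p < 1 / 2`. -/

open Set

namespace Pool.Agent.Lib.helper98

variable {ω : V → Prop} {p : ℝ}

/-- annulus crossing -/
def Ann (k n : ℤ) : Set (V → Prop) := Cr (box 0 n \ box 0 (k - 1)) (box 0 k) (box 0 (n - 1))ᶜ

lemma θ_le_ann (n : ℤ) : θ p n ≤ pr p (Ann 0 n) := by
  refine pr_mono ?_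
  rintro ω ⟨x, rfl, y, hy, k⟩
  refine ⟨0, by simp [mem_box], y, hy, k.mono fun z hz => ⟨hz, ?_⟩⟩
  rw [mem_box]; omega

lemma ann_mul {k n m : ℤ} (hkn : k ≤ n) (hnm : n < m) :
    pr p (Ann k m) ≤ pr p (Ann k n) * pr p (Ann (n + 1) m) := by
  rw [Ann, Ann, Ann, ← pr_inter_of_disjoint (dep_Cr _ _ _) (dep_Cr _ _ _)
    (Ed_finite (box_finite _ _).sdiff) (Ed_finite (box_finite _ _).sdiff)]
  · refine pr_mono ?_
    rintro ω ⟨x, hx, y, hy, h⟩
    constructor
    · obtain ⟨b, h1, h2⟩ := h.exit_box (box_mono hkn hx) fun h' => hy (box_mono (by omega) h')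
      exact ⟨x, hx, b, h1, h2.mono fun z hz => ⟨hz.2, hz.1.2⟩⟩
    · obtain ⟨a, b, k1, k2, -, k4, -⟩ := h.symm.first_exit' (S := (box 0 n)ᶜ)
        (fun h' => hy (box_mono (by omega) h')) (not_not.mpr (box_mono hkn hx))
      refine ⟨a, adj_mem_box (by simpa using k4) k2.symm, y, hy, k1.symm.mono fun z hz => ?_⟩
      exact ⟨hz.1.1, by simpa using hz.2⟩
  · apply Ed_disjoint
    rw [Set.disjoint_left]
    intro z h1 h2
    exact h2.2 (by simpa using h1.1)

lemma ann_high {c ε : ℝ} (hc : 0 < c) (hθ : ∀ n : ℤ, 0 ≤ n → c ≤ θ p n) (hε : 0 < ε) :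
    ∃ k : ℤ, 0 ≤ k ∧ ∀ n, k ≤ n → 1 - ε ≤ pr p (Ann k n) := by
  by_contra hcon
  push Not at hcon
  have h0 : 0 < 1 - ε := by
    obtain ⟨n, -, h⟩ := hcon 0 le_rfl
    exact (pr_nonneg _ _).trans_lt h
  have key : ∀ j : ℕ, ∃ n : ℤ, 0 ≤ n ∧ pr p (Ann 0 n) ≤ (1 - ε) ^ j := by
    intro j
    induction j with
    | zero => exact ⟨0, le_rfl, by simpa using pr_le_one p _⟩
    | succ j ih =>
      obtain ⟨n, hn, h1⟩ := ih
      obtain ⟨m, hm, h2⟩ := hcon (n + 1) (by omega)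
      refine ⟨m, by omega, (ann_mul hn (by omega)).trans ?_⟩
      rw [pow_succ]
      exact mul_le_mul h1 h2.le (pr_nonneg _ _) (by positivity)
  obtain ⟨j, hj⟩ := exists_pow_lt_of_lt_one hc (show 1 - ε < 1 by linarith)
  obtain ⟨n, hn, h⟩ := key j
  linarith [hθ n hn, θ_le_ann (p := p) n]

/-- wide rectangle -/
def Hr (x : V) (n : ℤ) : Set V := rect (x.1 - n) (x.1 + n) (x.2 - (n - 1)) (x.2 + (n - 1))
/-- tall rectangle -/
def Wr (x : V) (n : ℤ) : Set V := rect (x.1 - (n - 1)) (x.1 + (n - 1)) (x.2 - n) (x.2 + n)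

/-- left arm -/
def AL (x : V) (k n : ℤ) := Cr (Hr x n) (box x k) {z | z.1 = x.1 - n}
/-- right arm -/
def AR (x : V) (k n : ℤ) := Cr (Hr x n) (box x k) {z | z.1 = x.1 + n}
/-- bottom arm -/
def AB (x : V) (k n : ℤ) := Cr (Wr x n) (box x k) {z | z.2 = x.2 - n}
/-- top arm -/
def AT (x : V) (k n : ℤ) := Cr (Wr x n) (box x k) {z | z.2 = x.2 + n}

lemma ann_subset {k n : ℤ} (h : k < n) :
    Ann k n ⊆ AL 0 k n ∪ AR 0 k n ∪ (AB 0 k n ∪ AT 0 k n) := by
  rintro ω ⟨x, hx, y, hy, hc⟩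
  obtain ⟨a, b, k1, k2, k3, k4, -⟩ := hc.first_exit' (box_mono (by omega) hx) hy
  have ha := k1.right_mem.2
  have hH : Conn ω (Hr 0 n) x a := k1.mono fun z hz => by
    have := hz.2; simp only [mem_box, Hr, rect, mem_ofPred_eq] at *; omega
  have hW : Conn ω (Wr 0 n) x a := k1.mono fun z hz => by
    have := hz.2; simp only [mem_box, Wr, rect, mem_ofPred_eq] at *; omega
  rw [mem_box] at ha k4
  have k2' := k2
  unfold adj at k2'
  by_cases h1 : b.1 = (0 : V).1 - n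
  · exact Or.inl (Or.inl ⟨x, hx, b, h1, hH.tail k2 k3 (by
      simp only [Hr, rect, mem_ofPred_eq]; omega)⟩)
  by_cases h2 : b.1 = (0 : V).1 + n
  · exact Or.inl (Or.inr ⟨x, hx, b, h2, hH.tail k2 k3 (by
      simp only [Hr, rect, mem_ofPred_eq]; omega)⟩)
  by_cases h3 : b.2 = (0 : V).2 - n
  · exact Or.inr (Or.inl ⟨x, hx, b, h3, hW.tail k2 k3 (by
      simp only [Wr, rect, mem_ofPred_eq]; omega)⟩)
  · exact Or.inr (Or.inr ⟨x, hx, b, by simp only [mem_ofPred_eq]; omega, hW.tail k2 k3 (by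
      simp only [Wr, rect, mem_ofPred_eq]; omega)⟩)

lemma pr_Cr_rot {R X Y R' X' Y' : Set V} (hfin : R.Finite)
    (hR : ∀ z ∈ R, (-z.2, z.1) ∈ R') (hX : ∀ z ∈ X, (-z.2, z.1) ∈ X')
    (hY : ∀ z ∈ Y, (-z.2, z.1) ∈ Y') : pr p (Cr R X Y) ≤ pr p (Cr R' X' Y') :=
  pr_Cr_le (g := fun z => (-z.2, z.1)) (f := fun z => (-z.2, z.1))
    (fun a b h => by unfold adj at *; simp only; omega)
    (fun a b => by ext <;> simp; ring)
    (fun a b h => by simp only [Prod.mk.injEq, neg_inj] at h; exact Prod.ext h.2 h.1) hfin hR hX hY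

lemma arms_zero {k n : ℤ} (h : k < n) (hp0 : 0 ≤ p) (hp1 : p ≤ 1)
    (ha : 1 - (1 / 8) ^ 4 ≤ pr p (Ann k n)) :
    7 / 8 ≤ pr p (AL 0 k n) ∧ 7 / 8 ≤ pr p (AR 0 k n) ∧ 7 / 8 ≤ pr p (AB 0 k n) ∧
      7 / 8 ≤ pr p (AT 0 k n) := by
  have r1 : pr p (AL 0 k n) ≤ pr p (AB 0 k n) := by
    refine pr_Cr_rot (rect_finite _ _ _ _) ?_ ?_ ?_ <;> intro z hz <;>
      simp only [mem_box, Hr, Wr, rect, mem_ofPred_eq, Prod.fst_zero, Prod.snd_zero] at * <;> omega
  have r2 : pr p (AB 0 k n) ≤ pr p (AR 0 k n) := by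
    refine pr_Cr_rot (rect_finite _ _ _ _) ?_ ?_ ?_ <;> intro z hz <;>
      simp only [mem_box, Hr, Wr, rect, mem_ofPred_eq, Prod.fst_zero, Prod.snd_zero] at * <;> omega
  have r3 : pr p (AR 0 k n) ≤ pr p (AT 0 k n) := by
    refine pr_Cr_rot (rect_finite _ _ _ _) ?_ ?_ ?_ <;> intro z hz <;>
      simp only [mem_box, Hr, Wr, rect, mem_ofPred_eq, Prod.fst_zero, Prod.snd_zero] at * <;> omega
  have r4 : pr p (AT 0 k n) ≤ pr p (AL 0 k n) := by
    refine pr_Cr_rot (rect_finite _ _ _ _) ?_ ?_ ?_ <;> intro z hz <;>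
      simp only [mem_box, Hr, Wr, rect, mem_ofPred_eq, Prod.fst_zero, Prod.snd_zero] at * <;> omega
  have hE := Ed_finite (box_finite (0 : V) n)
  have sH : Hr 0 n ⊆ box 0 n := fun z hz => by
    simp only [mem_box, Hr, rect, mem_ofPred_eq] at *; omega
  have sW : Wr 0 n ⊆ box 0 n := fun z hz => by
    simp only [mem_box, Wr, rect, mem_ofPred_eq] at *; omega
  have dL : Dep (Ed (box 0 n)) (AL 0 k n) := (dep_Cr _ _ _).mono (Ed_mono sH)
  have dR : Dep (Ed (box 0 n)) (AR 0 k n) := (dep_Cr _ _ _).mono (Ed_mono sH)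
  have dB : Dep (Ed (box 0 n)) (AB 0 k n) := (dep_Cr _ _ _).mono (Ed_mono sW)
  have dT : Dep (Ed (box 0 n)) (AT 0 k n) := (dep_Cr _ _ _).mono (Ed_mono sW)
  have f1 := harris_compl hp0 hp1 hE dL dR (incr_Cr _ _ _) (incr_Cr _ _ _)
  have f2 := harris_compl hp0 hp1 hE dB dT (incr_Cr _ _ _) (incr_Cr _ _ _)
  have f3 := harris_compl hp0 hp1 hE (dL.union dR) (dB.union dT)
    ((incr_Cr _ _ _).union (incr_Cr _ _ _)) ((incr_Cr _ _ _).union (incr_Cr _ _ _))
  have f4 : pr p _ ≤ pr p _ := pr_mono (ann_subset h)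
  rw [pr_compl (((dL.union dR).union (dB.union dT)).measurableSet hE)] at f3
  rw [pr_compl (dL.measurableSet hE), pr_compl (dR.measurableSet hE)] at f1
  rw [pr_compl (dB.measurableSet hE), pr_compl (dT.measurableSet hE)] at f2
  have e1 : pr p (AB 0 k n) = pr p (AL 0 k n) := by linarith
  have e2 : pr p (AR 0 k n) = pr p (AL 0 k n) := by linarith
  have e3 : pr p (AT 0 k n) = pr p (AL 0 k n) := by linarith
  rw [e2] at f1
  rw [e1, e3] at f2
  rw [e1, e2, e3]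
  have t0 : 0 ≤ 1 - pr p (AL 0 k n) := sub_nonneg.mpr (pr_le_one _ _)
  have f5 := (mul_le_mul f1 f2 (mul_nonneg t0 t0) (pr_nonneg _ _)).trans f3
  have f6 : (1 - pr p (AL 0 k n)) ^ 4 ≤ (1 / 8) ^ 4 := by nlinarith
  have f7 := le_of_pow_le_pow_left₀ (by norm_num) (by norm_num) f6
  refine ⟨?_, ?_, ?_, ?_⟩ <;> linarith

/-- the four alternating arms -/
def Zh (x : V) (k n : ℤ) : Set (V → Prop) :=
  AL x k n ∩ AR x k n ∩ (dual ⁻¹' AB x k n ∩ dual ⁻¹' AT x k n)

lemma pr_dual (hp0 : 0 ≤ p) (hp1 : p ≤ 1) {A : Set (V → Prop)} (hA : MeasurableSet A) :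
    pr p (dual ⁻¹' A) = pr (1 - p) A :=
  pr_preimage_dual hp0 hp1 (f := fun m => m + (1, 1)) (add_left_injective _) hA

lemma measurable_dual : Measurable dual := by
  unfold dual; fun_prop

lemma pr_inter_ge {A B : Set (V → Prop)} (hB : MeasurableSet B) :
    pr p A + pr p B - 1 ≤ pr p (A ∩ B) := by
  have h1 : pr p (A ∪ B) + pr p (A ∩ B) = pr p A + pr p B :=
    MeasureTheory.measureReal_union_add_inter hB
  linarith [pr_le_one p (A ∪ B)]

lemma pr_Zh {p₁ : ℝ} (h0 : 0 ≤ p₁) (h1 : p₁ ≤ p) (h2 : p ≤ 1 - p₁) {k n : ℤ} (h : k < n)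
    (ha : 1 - (1 / 8) ^ 4 ≤ pr p₁ (Ann k n)) (x : V) : 1 / 2 ≤ pr p (Zh x k n) := by
  have mono : ∀ s, p₁ ≤ s → s ≤ 1 → pr p₁ (Ann k n) ≤ pr s (Ann k n) := fun s a b =>
    pr_mono_param h0 a b (Ed_finite (box_finite _ _).sdiff) (dep_Cr _ _ _) (incr_Cr _ _ _)
  obtain ⟨a1, a2, -, -⟩ := arms_zero h (h0.trans h1) (by linarith)
    (ha.trans (mono p h1 (by linarith)))
  obtain ⟨-, -, a3, a4⟩ := arms_zero (p := 1 - p) h (by linarith) (by linarith)
    (ha.trans (mono (1 - p) (by linarith) (by linarith)))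
  have b1 : pr p (AL 0 k n) ≤ pr p (AL x k n) := by
    refine pr_Cr_shift x (rect_finite _ _ _ _) ?_ ?_ ?_ <;> intro z hz <;>
      simp only [mem_box, Hr, rect, mem_ofPred_eq, Prod.fst_zero, Prod.snd_zero, Prod.fst_add,
        Prod.snd_add] at * <;> omega
  have b2 : pr p (AR 0 k n) ≤ pr p (AR x k n) := by
    refine pr_Cr_shift x (rect_finite _ _ _ _) ?_ ?_ ?_ <;> intro z hz <;>
      simp only [mem_box, Hr, rect, mem_ofPred_eq, Prod.fst_zero, Prod.snd_zero, Prod.fst_add,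
        Prod.snd_add] at * <;> omega
  have b3 : pr (1 - p) (AB 0 k n) ≤ pr (1 - p) (AB x k n) := by
    refine pr_Cr_shift x (rect_finite _ _ _ _) ?_ ?_ ?_ <;> intro z hz <;>
      simp only [mem_box, Wr, rect, mem_ofPred_eq, Prod.fst_zero, Prod.snd_zero, Prod.fst_add,
        Prod.snd_add] at * <;> omega
  have b4 : pr (1 - p) (AT 0 k n) ≤ pr (1 - p) (AT x k n) := by
    refine pr_Cr_shift x (rect_finite _ _ _ _) ?_ ?_ ?_ <;> intro z hz <;>
      simp only [mem_box, Wr, rect, mem_ofPred_eq, Prod.fst_zero, Prod.snd_zero, Prod.fst_add,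
        Prod.snd_add] at * <;> omega
  have mR : MeasurableSet (AR x k n) := measurableSet_Cr (rect_finite _ _ _ _) _ _
  have mB : MeasurableSet (AB x k n) := measurableSet_Cr (rect_finite _ _ _ _) _ _
  have mT : MeasurableSet (AT x k n) := measurableSet_Cr (rect_finite _ _ _ _) _ _
  have c1 := pr_inter_ge (p := p) (A := AL x k n) mR
  have c2 := pr_inter_ge (p := p) (A := dual ⁻¹' AB x k n) (measurable_dual mT)
  have c3 := pr_inter_ge (p := p) (A := AL x k n ∩ AR x k n)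
    ((measurable_dual mB).inter (measurable_dual mT))
  rw [pr_dual (h0.trans h1) (by linarith) mB, pr_dual (h0.trans h1) (by linarith) mT] at c2
  rw [Zh]
  linarith

lemma Conn.last_exit {R S : Set V} {x y : V} (h : Conn ω R x y) (hx : x ∈ S) :
    ∃ x' ∈ S, Conn (ovr (Ed S) False ω) R x' y := by
  induction h with
  | refl h => exact ⟨x, hx, Conn.refl h⟩
  | @tail a b _ k1 k2 k3 ih =>
    by_cases hb : b ∈ S
    · exact ⟨b, hb, Conn.refl k3⟩
    · obtain ⟨x', h1, h2⟩ := ih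
      refine ⟨x', h1, h2.tail k1 ?_ k3⟩
      rw [ovr_of_notMem]
      · exact k2
      · rintro ⟨c, hc, d, hd, k4, k5⟩
        rcases adj_inj k1 k4 k5 with ⟨rfl, rfl⟩ | ⟨rfl, rfl⟩
        · exact hb hd
        · exact hb hc

/-- boundary of the box -/
noncomputable def sph (N : ℤ) : Finset V :=
  ((box_finite 0 N).sdiff (t := box 0 (N - 1))).toFinset

lemma mem_sph {N : ℤ} {z : V} : z ∈ sph N ↔ z ∈ box 0 N ∧ z ∉ box 0 (N - 1) := by
  simp [sph]

lemma card_sph (N : ℕ) : (sph N).card ≤ 4 * (2 * N + 1) := by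
  have h : sph N ⊆ (({-(N : ℤ), (N : ℤ)} : Finset ℤ) ×ˢ Finset.Icc (-(N : ℤ)) N) ∪
      (Finset.Icc (-(N : ℤ)) N ×ˢ ({-(N : ℤ), (N : ℤ)} : Finset ℤ)) := by
    intro z hz
    rw [mem_sph, mem_box, mem_box] at hz
    simp only [Finset.mem_union, Finset.mem_product, Finset.mem_insert, Finset.mem_singleton,
      Finset.mem_Icc, Prod.fst_zero, Prod.snd_zero] at *
    omega
  refine (Finset.card_le_card h).trans ((Finset.card_union_le _ _).trans ?_)
  rw [Finset.card_product, Finset.card_product, Int.card_Icc]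
  have h1 : ({-(N : ℤ), (N : ℤ)} : Finset ℤ).card ≤ 2 := Finset.card_le_two
  have h2 : ((N : ℤ) + 1 - -(N : ℤ)).toNat = 2 * N + 1 := by omega
  rw [h2]
  nlinarith

/-- the boundary vertex `y` is joined to an earlier boundary vertex -/
def Mer (N : ℤ) (y : V) : Set (V → Prop) :=
  Cr (box 0 N) {y} {y' | y' ∈ sph N ∧ Encodable.encode y' < Encodable.encode y}

lemma mer_piv {N : ℤ} {B : Set V} {u v : V} (hu : u ∈ sph N) (hv : v ∈ sph N)
    (h0 : ¬Conn (ovr B False ω) (box 0 N) u v) (h1 : Conn (ovr B True ω) (box 0 N) u v) :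
    ∃ y ∈ sph N, ω ∈ Piv B (Mer N y) := by
  classical
  have up : ∀ {a b : V}, Conn (ovr B False ω) (box 0 N) a b → Conn (ovr B True ω) (box 0 N) a b :=
    fun h => h.mono' fun e he => le_ovr_true _ _ _ (ovr_false_le _ _ _ he)
  have ex : ∀ u ∈ sph N, ∃ u₀ ∈ sph N, Conn (ovr B False ω) (box 0 N) u u₀ ∧
      ovr B False ω ∉ Mer N u₀ := by
    intro u hu
    obtain ⟨u₀, k1, k2⟩ := Finset.exists_min_image
      ((sph N).filter fun y => Conn (ovr B False ω) (box 0 N) u y) Encodable.encode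
      ⟨u, Finset.mem_filter.mpr ⟨hu, Conn.refl (mem_sph.mp hu).1⟩⟩
    rw [Finset.mem_filter] at k1
    refine ⟨u₀, k1.1, k1.2, ?_⟩
    rintro ⟨x, rfl, y, hy, k⟩
    exact absurd (k2 y (Finset.mem_filter.mpr ⟨hy.1, k1.2.trans k⟩)) (not_le.mpr hy.2)
  obtain ⟨u₀, a1, a2, a3⟩ := ex u hu
  obtain ⟨v₀, b1, b2, b3⟩ := ex v hv
  have hne : u₀ ≠ v₀ := by
    rintro rfl
    exact h0 (a2.trans b2.symm)
  have hc := ((up a2).symm.trans h1).trans (up b2)
  rcases lt_or_gt_of_ne (Encodable.encode_injective.ne hne) with h | h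
  · exact ⟨v₀, b1, ⟨v₀, rfl, u₀, ⟨a1, h⟩, hc.symm⟩, b3⟩
  · exact ⟨u₀, a1, ⟨u₀, rfl, v₀, ⟨b1, h⟩, hc⟩, a3⟩

lemma zh_piv {x : V} {k n N : ℤ} (hkn : k < n) (h1 : box x (k + 1) ⊆ box 0 (N - 1))
    (h2 : box 0 N ⊆ box x (n - 1)) (hω : ω ∈ Zh x k n) :
    ∃ y ∈ sph N, ω ∈ Piv (Ed (box x (k + 1))) (Mer N y) := by
  obtain ⟨⟨⟨xl, hxl, yl, hyl, cl⟩, ⟨xr, hxr, yr, hyr, cr⟩⟩, ⟨xb, hxb, yb, hyb, cb⟩,
    ⟨xt, hxt, yt, hyt, ct⟩⟩ := hω
  obtain ⟨xl', hl, cl'⟩ := cl.last_exit (S := box x (k + 1)) (box_mono (by omega) hxl)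
  obtain ⟨xr', hr, cr'⟩ := cr.last_exit (S := box x (k + 1)) (box_mono (by omega) hxr)
  rw [mem_ofPred_eq] at hyl hyr hyb hyt
  obtain ⟨u, hu, cu⟩ := cl'.exit_box (x := 0) (n := N) (box_mono (by omega) (h1 hl)) fun h => by
    have := h2 (box_mono (by omega) h); rw [mem_box] at this; omega
  obtain ⟨v, hv, cv⟩ := cr'.exit_box (x := 0) (n := N) (box_mono (by omega) (h1 hr)) fun h => by
    have := h2 (box_mono (by omega) h); rw [mem_box] at this; omega
  have sH : box 0 N ⊆ Hr x n := fun z hz => by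
    have := h2 hz; simp only [mem_box, Hr, rect, mem_ofPred_eq] at *; omega
  refine mer_piv (mem_sph.mpr ⟨cu.right_mem.2, hu⟩) (mem_sph.mpr ⟨cv.right_mem.2, hv⟩) ?_ ?_
  · intro huv
    have c1 : Conn (ovr (Ed (box x (k + 1))) False ω) (Hr x n) yl yr :=
      ((cl'.symm.trans (cu.mono inter_subset_left)).trans (huv.mono sH)).trans
        ((cv.mono inter_subset_left).symm.trans cr')
    have up : ∀ e, dual ω e → dual (ovr (Ed (box x (k + 1))) False ω) e :=
      fun e he h => he (ovr_false_le _ _ _ h)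
    have hin : ∀ a ∈ box x k, ∀ b ∈ box x k, adj a b →
        dual (ovr (Ed (box x (k + 1))) False ω) (a + b) := by
      intro a ha b hb hab
      unfold dual
      rw [ovr_of_mem]
      · exact id
      · rw [mem_box] at ha hb
        obtain ⟨a1, a2⟩ := a
        obtain ⟨b1, b2⟩ := b
        rcases hab with ⟨e1, e2 | e2⟩ | ⟨e1, e2 | e2⟩ <;> simp only at e1 e2 ha hb <;> subst e1 e2
        · exact ⟨(a1, b2 + 1), by rw [mem_box]; simp only; omega, (a1 + 1, b2 + 1),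
            by rw [mem_box]; simp only; omega, by simp [adj], by ext <;> simp <;> ring⟩
        · exact ⟨(a1, a2 + 1), by rw [mem_box]; simp only; omega, (a1 + 1, a2 + 1),
            by rw [mem_box]; simp only; omega, by simp [adj], by ext <;> simp <;> ring⟩
        · exact ⟨(b1 + 1, a2), by rw [mem_box]; simp only; omega, (b1 + 1, a2 + 1),
            by rw [mem_box]; simp only; omega, by simp [adj], by ext <;> simp <;> ring⟩
        · exact ⟨(a1 + 1, a2), by rw [mem_box]; simp only; omega, (a1 + 1, a2 + 1),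
            by rw [mem_box]; simp only; omega, by simp [adj], by ext <;> simp <;> ring⟩
    have sW : box x k ⊆ Wr x n := fun z hz => by
      simp only [mem_box, Wr, rect, mem_ofPred_eq] at *; omega
    have c2 : Conn (dual (ovr (Ed (box x (k + 1))) False ω)) (Wr x n) yt yb :=
      ((ct.mono' up).symm.trans
        (((conn_rect hin hxt).symm.trans (conn_rect hin hxb)).mono sW)).trans (cb.mono' up)
    refine no_cross (a := x.1 - n) (b := x.1 + n) (c := x.2 - (n - 1)) (d := x.2 + (n - 1)) c1 ?_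
      hyl.le hyr.ge c2 ?_ (by omega) (by omega)
    · intro z hz; simp only [Hr, rect, mem_ofPred_eq] at hz; omega
    · intro z hz; simp only [Wr, rect, mem_ofPred_eq] at hz; omega
  · have up : ∀ e, ovr (Ed (box x (k + 1))) False ω e → ovr (Ed (box x (k + 1))) True ω e :=
      fun e he => le_ovr_true _ _ _ (ovr_false_le _ _ _ he)
    have hin : ∀ a ∈ box x (k + 1), ∀ b ∈ box x (k + 1), adj a b →
        ovr (Ed (box x (k + 1))) True ω (a + b) := by
      intro a ha b hb hab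
      rw [ovr_of_mem (show a + b ∈ Ed (box x (k + 1)) from ⟨a, ha, b, hb, hab, rfl⟩)]; trivial
    exact (((cu.mono inter_subset_right).mono' up).symm.trans
      (((conn_rect hin hl).symm.trans (conn_rect hin hr)).mono
        (h1.trans (box_mono (by omega))))).trans ((cv.mono inter_subset_right).mono' up)

lemma card_Ed_box (x : V) (k : ℕ) :
    (Ed_finite (box_finite x k)).toFinset.card ≤ (4 * k + 1) ^ 2 := by
  have h : (Ed_finite (box_finite x k)).toFinset ⊆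
      Finset.Icc (2 * x.1 - 2 * k) (2 * x.1 + 2 * k) ×ˢ
        Finset.Icc (2 * x.2 - 2 * k) (2 * x.2 + 2 * k) := by
    intro m hm
    obtain ⟨a, ha, b, hb, -, rfl⟩ := (Finite.mem_toFinset _).mp hm
    rw [mem_box] at ha hb
    simp only [Finset.mem_product, Finset.mem_Icc, Prod.fst_add, Prod.snd_add]
    omega
  refine (Finset.card_le_card h).trans (le_of_eq ?_)
  rw [Finset.card_product, Int.card_Icc, Int.card_Icc, sq]
  congr 1 <;> omega

theorem no_percolation {p₁ c : ℝ} (h0 : 0 < p₁) (h1 : p₁ < 1 / 2) (hc : 0 < c)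
    (hθ : ∀ n : ℤ, 0 ≤ n → c ≤ θ p₁ n) : False := by
  classical
  obtain ⟨k', hk', hann⟩ := ann_high hc hθ (ε := (1 / 8) ^ 4) (by norm_num)
  obtain ⟨k, rfl⟩ := Int.eq_ofNat_of_zero_le hk'
  set γ : ℝ := p₁ ^ ((4 * (k + 1) + 1) ^ 2) with hγ
  have hγ0 : 0 < γ := by positivity
  obtain ⟨M, hM⟩ := exists_nat_gt (8 * (4 * k + 7) / (γ * (1 - p₁ - p₁)))
  have hpos : 0 < γ * (1 - p₁ - p₁) := mul_pos hγ0 (by linarith)
  have hM0 : (0 : ℝ) < M := lt_trans (by positivity) hM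
  have hM1 : 1 ≤ M := by exact_mod_cast hM0
  set N : ℕ := (2 * k + 3) * M with hN
  set EF := (Ed_finite (box_finite 0 (N : ℤ))).toFinset with hEF
  let xx : ℕ × ℕ → V := fun q => ((2 * k + 3) * q.1, (2 * k + 3) * q.2)
  let BF : ℕ × ℕ → Finset V := fun q => (Ed_finite (box_finite (xx q) (k + 1 : ℕ))).toFinset
  set T := Finset.range M ×ˢ Finset.range M with hT
  have hbox : ∀ q ∈ T, box (xx q) (k + 1) ⊆ box 0 (N - 1) ∧ box 0 N ⊆ box (xx q) (2 * N + 1 - 1) := by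
    intro q hq
    rw [hT, Finset.mem_product, Finset.mem_range, Finset.mem_range] at hq
    have a1 : (2 * k + 3) * (q.1 + 1) ≤ N := Nat.mul_le_mul_left _ hq.1
    have a2 : (2 * k + 3) * (q.2 + 1) ≤ N := Nat.mul_le_mul_left _ hq.2
    have b1 : (2 * (k : ℤ) + 3) * q.1 + (2 * k + 3) ≤ N := by exact_mod_cast a1
    have b2 : (2 * (k : ℤ) + 3) * q.2 + (2 * k + 3) ≤ N := by exact_mod_cast a2
    have c1 : 0 ≤ (2 * (k : ℤ) + 3) * q.1 := by positivity
    have c2 : 0 ≤ (2 * (k : ℤ) + 3) * q.2 := by positivity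
    constructor <;> intro z hz <;> simp only [mem_box, xx, Prod.fst_zero, Prod.snd_zero] at * <;>
      omega
  have hdisj : (T : Set (ℕ × ℕ)).PairwiseDisjoint BF := by
    intro q _ r _ hqr
    rw [Function.onFun, ← Finset.disjoint_coe]
    simp only [BF, Finite.coe_toFinset]
    apply Ed_disjoint
    rw [Set.disjoint_left]
    intro z h1 h2
    apply hqr
    simp only [mem_box, xx] at h1 h2
    push_cast at h1 h2
    have key : ∀ a b : ℕ, (2 * (k : ℤ) + 3) * a - (k + 1) ≤ (2 * k + 3) * b + (k + 1) → a ≤ b := by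
      intro a b h
      by_contra hab
      have : (b : ℤ) + 1 ≤ a := by exact_mod_cast not_le.mp hab
      nlinarith
    exact Prod.ext (le_antisymm (key _ _ (by omega)) (key _ _ (by omega)))
      (le_antisymm (key _ _ (by omega)) (key _ _ (by omega)))
  have hd : ∀ s ∈ Icc p₁ (1 - p₁), HasDerivAt (fun s => ∑ y ∈ sph N, pr s (Mer N y))
      (∑ y ∈ sph N, ∑ e ∈ EF, pr s (Piv {e} (Mer N y))) s := fun s hs =>
    HasDerivAt.fun_sum fun y _ => russo (h0.trans_le hs.1) (by linarith [hs.2]) _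
      (by simpa [hEF, Mer] using dep_Cr _ _ _) (incr_Cr _ _ _)
  obtain ⟨s, hs, h⟩ := exists_hasDerivAt_eq_slope (fun s => ∑ y ∈ sph N, pr s (Mer N y)) _
    (show p₁ < 1 - p₁ by linarith)
    (fun s hs => (hd s hs).continuousAt.continuousWithinAt) fun s hs => hd s (Ioo_subset_Icc_self hs)
  have low : γ * (M * M / 2) ≤ ∑ y ∈ sph N, ∑ e ∈ EF, pr s (Piv {e} (Mer N y)) := by
    have a1 : ∀ y, ∑ q ∈ T, γ * pr s (Piv (Ed (box (xx q) (k + 1))) (Mer N y)) ≤
        ∑ e ∈ EF, pr s (Piv {e} (Mer N y)) := by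
      intro y
      have b1 : ∑ e ∈ T.biUnion BF, pr s (Piv {e} (Mer N y)) ≤
          ∑ e ∈ EF, pr s (Piv {e} (Mer N y)) := by
        refine Finset.sum_le_sum_of_subset_of_nonneg ?_ fun _ _ _ => pr_nonneg _ _
        intro e he
        obtain ⟨q, hq, he⟩ := Finset.mem_biUnion.mp he
        rw [hEF, Finite.mem_toFinset]
        refine Ed_mono ((hbox q hq).1.trans (box_mono (by omega))) ?_
        simpa [BF] using he
      rw [Finset.sum_biUnion hdisj] at b1
      refine le_trans (Finset.sum_le_sum fun q _ => ?_) b1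
      have b2 := box_piv h0.le hs.1.le (by linarith [hs.2]) (Ed_finite (box_finite 0 (N : ℤ)))
        (dep_Cr (box 0 N) {y} {y' | y' ∈ sph N ∧ Encodable.encode y' < Encodable.encode y}) (BF q)
      refine le_trans ?_ b2
      simp only [BF, Finite.coe_toFinset, Nat.cast_add, Nat.cast_one]
      refine mul_le_mul_of_nonneg_right ?_ (pr_nonneg _ _)
      refine pow_le_pow_of_le_one h0.le (by linarith) ?_
      exact_mod_cast card_Ed_box (xx q) (k + 1)
    refine le_trans ?_ (Finset.sum_le_sum fun y _ => a1 y)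
    rw [Finset.sum_comm]
    have a2 : ∀ q ∈ T, γ * (1 / 2) ≤
        ∑ y ∈ sph N, γ * pr s (Piv (Ed (box (xx q) (k + 1))) (Mer N y)) := by
      intro q hq
      rw [← Finset.mul_sum]
      refine mul_le_mul_of_nonneg_left ?_ hγ0.le
      have hkN : (k : ℤ) < 2 * N + 1 := by
        have : k ≤ N := by rw [hN]; nlinarith
        omega
      refine (pr_Zh h0.le hs.1.le hs.2.le hkN (hann _ hkN.le) (xx q)).trans ?_
      exact pr_le_sum _ _ fun ω hω => zh_piv hkN (hbox q hq).1 (hbox q hq).2 hω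
    refine le_trans (le_of_eq ?_) (Finset.sum_le_sum a2)
    simp [hT]; ring
  have up : ∑ y ∈ sph N, pr (1 - p₁) (Mer N y) ≤ 4 * (2 * N + 1) := by
    refine (Finset.sum_le_card_nsmul _ _ 1 fun y _ => pr_le_one _ _).trans ?_
    simp only [nsmul_eq_mul, mul_one]
    exact_mod_cast card_sph N
  have nn : 0 ≤ ∑ y ∈ sph N, pr p₁ (Mer N y) := Finset.sum_nonneg fun _ _ => pr_nonneg _ _
  rw [h, le_div_iff₀ (by linarith)] at low
  rw [div_lt_iff₀ hpos] at hM
  have hN' : (N : ℝ) = (2 * k + 3) * M := by rw [hN]; push_cast; ring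
  have hM1' : (1 : ℝ) ≤ M := by exact_mod_cast hM1
  rw [hN'] at up
  nlinarith

/-- exponential decay below one half -/
theorem exp_decay {q : ℝ} (h0 : 0 ≤ q) (h1 : q < 1 / 2) :
    ∃ (r : ℝ) (L : ℕ), 0 ≤ r ∧ r < 1 ∧ 0 < L ∧ ∀ n : ℕ, θ q n ≤ r ^ (n / L) := by
  set q₁ := (q + 1 / 2) / 2 with hq₁
  set q₂ := (q₁ + 1 / 2) / 2 with hq₂
  have a0 : 0 < q₁ := by linarith
  have a1 : q₁ < q₂ := by linarith
  have a2 : q₂ < 1 / 2 := by linarith
  by_cases hψ : ∀ S : Finset V, (0 : V) ∈ S → 1 ≤ ψ q₁ S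
  · exact (no_percolation (a0.trans a1) a2 (c := (q₂ - q₁) / 2) (by linarith)
      fun n hn => θ_lower a0 a1 (by linarith) hψ hn).elim
  push Not at hψ
  obtain ⟨S, hS0, hS⟩ := hψ
  obtain ⟨L, hL⟩ : ∃ L : ℕ, (S : Set V) ⊆ box 0 L := by
    refine ⟨S.sup fun z => z.1.natAbs + z.2.natAbs, fun z hz => ?_⟩
    have := Finset.le_sup (f := fun z : V => z.1.natAbs + z.2.natAbs) hz
    rw [mem_box]
    simp only [Prod.fst_zero, Prod.snd_zero] at *
    omega
  refine ⟨ψ q₁ S, L + 1, ψ_nonneg _ _, hS, by omega, fun n => ?_⟩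
  refine (θ_mono_param h0 (by linarith) (show q₁ ≤ 1 by linarith) n).trans ?_
  refine le_trans (θ_anti (by positivity) ?_) (θ_pow (L := L + 1) hS0 (by simpa using hL) _)
  exact_mod_cast Nat.div_mul_le_self n (L + 1)

end Pool.Agent.Lib.helper98
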